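import Pool.Agent.H537R3.Chess.Circle

/-! Arcs cut out of circles symmetric with respect to a mirror. -/

set_option autoImplicit false

open H537R3.Chess

namespace Pool.Agent.Y492.Chess

/-- the part `v > 0` of the circle `v = a z + b`, `u² + v² + z² = m z + k` (coordinates `u, v, z`) -/
def arcS (a b m k : ℝ) : Set (ℝ × ℝ × ℝ) :=
  {p | p.2.1 = a * p.2.2 + b ∧ p.1 ^ 2 + p.2.1 ^ 2 + p.2.2 ^ 2 = m * p.2.2 + k ∧ 0 < p.2.1}

theorem arcS_preconnected (a b m k : ℝ) : IsPreconnected (arcS a b m k) := by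
  obtain ⟨q, hq⟩ : ∃ q, q = √(1 + a ^ 2) := ⟨_, rfl⟩
  have hq2 : q ^ 2 = 1 + a ^ 2 := by rw [hq, Real.sq_sqrt (by positivity)]
  have hqpos : 0 < q := by rw [hq]; positivity
  obtain ⟨zc, hzc⟩ : ∃ zc, zc = (m / 2 - a * b) / (1 + a ^ 2) := ⟨_, rfl⟩
  have hzc2 : (1 + a ^ 2) * zc = m / 2 - a * b := by rw [hzc]; field_simp
  obtain ⟨R2, hR2⟩ : ∃ R2, R2 = k - b ^ 2 + (1 + a ^ 2) * zc ^ 2 := ⟨_, rfl⟩
  have key : ∀ u z : ℝ, u ^ 2 + (a * z + b) ^ 2 + z ^ 2 = m * z + k ↔ u ^ 2 + (q * (z - zc)) ^ 2 = R2 := by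
    intro u z
    have e : (q * (z - zc)) ^ 2 = (1 + a ^ 2) * z ^ 2 - 2 * z * ((1 + a ^ 2) * zc) + (1 + a ^ 2) * zc ^ 2 := by
      rw [mul_pow, hq2]; ring
    rw [e, hR2, hzc2]
    constructor <;> intro h <;> linarith
  rcases lt_or_ge R2 0 with hR | hR
  · have : arcS a b m k = ∅ := by
      ext ⟨u, v, z⟩
      simp only [arcS, Set.mem_ofPred_eq, Set.mem_empty_iff_false, iff_false, not_and]
      rintro h1 h2 -
      rw [h1] at h2
      have := (key u z).mp h2
      nlinarith [sq_nonneg u, sq_nonneg (q * (z - zc))]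
    rw [this]
    exact isPreconnected_empty
  obtain ⟨R, hRR⟩ : ∃ R, R = √R2 := ⟨_, rfl⟩
  have hR0 : 0 ≤ R := by rw [hRR]; exact Real.sqrt_nonneg _
  have hRsq : R ^ 2 = R2 := by rw [hRR, Real.sq_sqrt hR]
  -- the parametrization
  let z : ℝ → ℝ := fun θ => zc + R / q * Real.cos θ
  let f : ℝ → ℝ × ℝ × ℝ := fun θ => (R * Real.sin θ, a * z θ + b, z θ)
  have hfc : Continuous f := by
    simp only [f, z]
    fun_prop
  have hmem : ∀ θ, 0 < a * z θ + b → f θ ∈ arcS a b m k := by
    intro θ hθ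
    refine ⟨rfl, ?_, hθ⟩
    show (R * Real.sin θ) ^ 2 + (a * z θ + b) ^ 2 + (z θ) ^ 2 = m * z θ + k
    rw [key]
    have e : q * (z θ - zc) = R * Real.cos θ := by
      simp only [z]; field_simp; ring
    rw [e, ← hRsq]
    have := Real.sin_sq_add_cos_sq θ
    linear_combination R ^ 2 * this
  let I : Set ℝ := {θ | θ ∈ Set.Icc 0 Real.pi ∧ 0 < a * z θ + b}
  have hI : IsPreconnected I := by
    apply Set.OrdConnected.isPreconnected
    constructor
    rintro x ⟨hx1, hx2⟩ y ⟨hy1, hy2⟩ t ⟨ht1, ht2⟩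
    have ht : t ∈ Set.Icc 0 Real.pi := ⟨hx1.1.trans ht1, ht2.trans hy1.2⟩
    refine ⟨ht, ?_⟩
    have c1 : Real.cos t ≤ Real.cos x := Real.strictAntiOn_cos.antitoneOn hx1 ht ht1
    have c2 : Real.cos y ≤ Real.cos t := Real.strictAntiOn_cos.antitoneOn ht hy1 ht2
    have hRq : 0 ≤ R / q := by positivity
    simp only [z] at hx2 hy2 ⊢
    rcases le_total 0 a with ha | ha
    · have h1 := mul_le_mul_of_nonneg_left c2 hRq
      have h2 := mul_le_mul_of_nonneg_left h1 ha
      linarith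
    · have h1 := mul_le_mul_of_nonneg_left c1 hRq
      have h2 := mul_le_mul_of_nonpos_left h1 ha
      linarith
  have hzneg : ∀ θ, z (-θ) = z θ := fun θ => by simp only [z, Real.cos_neg]
  have hun : arcS a b m k = f '' I ∪ (fun θ => f (-θ)) '' I := by
    ext p
    constructor
    · obtain ⟨u, v, zz⟩ := p
      rintro ⟨h1, h2, h3⟩
      simp only at h1 h2 h3
      rw [h1, key, ← hRsq] at h2
      have hle : (q * (zz - zc)) ^ 2 ≤ R ^ 2 := by nlinarith [sq_nonneg u]
      have habs : |q * (zz - zc)| ≤ R := abs_le_of_sq_le_sq hle hR0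
      rcases hR0.eq_or_lt with h0 | h0
      · -- degenerate circle
        have hu : u = 0 := by
          rw [← h0] at h2
          have : u ^ 2 = 0 := by nlinarith [sq_nonneg u, sq_nonneg (q * (zz - zc))]
          exact pow_eq_zero_iff (two_ne_zero) |>.mp this
        have hz : zz = zc := by
          rw [← h0] at habs
          have h5 : q * (zz - zc) = 0 := abs_eq_zero.mp (le_antisymm habs (abs_nonneg _))
          rcases mul_eq_zero.mp h5 with h6 | h6
          · exact absurd h6 hqpos.ne'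
          · linarith
        left
        refine ⟨0, ⟨⟨le_rfl, Real.pi_pos.le⟩, ?_⟩, ?_⟩
        · simp only [z, ← h0, zero_div, zero_mul, add_zero]
          rw [← hz, ← h1]; exact h3
        · simp only [f, z, ← h0, zero_div, zero_mul, add_zero, h1, hu, hz]
      · obtain ⟨θ, hθ⟩ : ∃ θ, θ = Real.arccos (q * (zz - zc) / R) := ⟨_, rfl⟩
        have hb1 : -1 ≤ q * (zz - zc) / R := by
          rw [le_div_iff₀ h0]; have := (abs_le.mp habs).1; linarith
        have hb2 : q * (zz - zc) / R ≤ 1 := by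
          rw [div_le_one h0]; exact (abs_le.mp habs).2
        have hcos : Real.cos θ = q * (zz - zc) / R := by rw [hθ, Real.cos_arccos hb1 hb2]
        have hθI : θ ∈ Set.Icc 0 Real.pi := by
          rw [hθ]; exact ⟨Real.arccos_nonneg _, Real.arccos_le_pi _⟩
        have hz : z θ = zz := by
          simp only [z, hcos]; field_simp; ring
        have hsin : Real.sin θ ^ 2 = (u / R) ^ 2 := by
          have h6 := Real.sin_sq_add_cos_sq θ
          rw [hcos] at h6
          have : (q * (zz - zc) / R) ^ 2 + (u / R) ^ 2 = 1 := by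
            field_simp; linarith
          linarith
        have hI' : θ ∈ I := ⟨hθI, by rw [hz, ← h1]; exact h3⟩
        rcases sq_eq_sq_iff_eq_or_eq_neg.mp hsin with h7 | h7
        · left
          refine ⟨θ, hI', ?_⟩
          simp only [f, hz, h7, h1]
          rw [mul_div_cancel₀ _ h0.ne']
        · right
          refine ⟨θ, hI', ?_⟩
          simp only [f, hzneg, hz, Real.sin_neg, h7, neg_neg, h1]
          rw [mul_div_cancel₀ _ h0.ne']
    · rintro (⟨θ, ⟨-, h⟩, rfl⟩ | ⟨θ, ⟨-, h⟩, rfl⟩)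
      · exact hmem θ h
      · exact hmem (-θ) (by rw [hzneg]; exact h)
  rw [hun]
  rcases Set.eq_empty_or_nonempty I with hIe | ⟨t, ht1, ht2⟩
  · rw [hIe, Set.image_empty, Set.image_empty, Set.union_empty]; exact isPreconnected_empty
  have h1 : IsPreconnected (f '' I) := hI.image f hfc.continuousOn
  have h2 : IsPreconnected ((fun θ => f (-θ)) '' I) :=
    hI.image _ (hfc.comp continuous_neg).continuousOn
  have hRq : 0 ≤ R / q := by positivity
  rcases le_total 0 a with ha | ha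
  · have h0I : (0 : ℝ) ∈ I := by
      refine ⟨⟨le_rfl, Real.pi_pos.le⟩, ?_⟩
      have c1 : Real.cos t ≤ Real.cos 0 := by rw [Real.cos_zero]; exact Real.cos_le_one t
      have h3 := mul_le_mul_of_nonneg_left (mul_le_mul_of_nonneg_left c1 hRq) ha
      simp only [z] at ht2 ⊢
      linarith
    refine IsPreconnected.union (f 0) ⟨0, h0I, rfl⟩ ⟨0, h0I, by simp⟩ h1 h2
  · have h0I : Real.pi ∈ I := by
      refine ⟨⟨Real.pi_pos.le, le_rfl⟩, ?_⟩
      have c1 : Real.cos Real.pi ≤ Real.cos t := by rw [Real.cos_pi]; exact Real.neg_one_le_cos t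
      have h3 := mul_le_mul_of_nonpos_left (mul_le_mul_of_nonneg_left c1 hRq) ha
      simp only [z] at ht2 ⊢
      linarith
    refine IsPreconnected.union (f Real.pi) ⟨_, h0I, rfl⟩ ⟨_, h0I, ?_⟩ h1 h2
    simp only [f, hzneg, Real.sin_neg, Real.sin_pi, neg_zero]

end Pool.Agent.Y492.Chess
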