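import Pool.Agent.H537R3.Chess.Basis

/-! The functions in `Lin ^ 4` in the coordinates `1, x, y, z, x² + y² + z²`. -/

set_option autoImplicit false

open H537R3.Chess

namespace Pool.Agent.Y492.Chess

/-- the coordinates `1, x, y, z, |x|²` -/
def vE (x : E3) : ℕ → ℝ
  | 0 => 1
  | 1 => x 0
  | 2 => x 1
  | 3 => x 2
  | _ => nsq x

theorem vE_rel (x : E3) : vE x 1 ^ 2 = vE x 0 * vE x 4 - vE x 2 ^ 2 - vE x 3 ^ 2 := by
  simp only [vE, nsq]
  ring

theorem lin_vE (f : E3 → ℝ) (hf : f ∈ Lin) : ∃ c0 c1 c2 c3 c4 : ℝ, ∀ x, f x =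
    c0 * vE x 0 + c1 * vE x 1 + c2 * vE x 2 + c3 * vE x 3 + c4 * vE x 4 := by
  obtain ⟨a, b0, b1, b2, c, rfl⟩ := hf
  refine ⟨c, b0, b1, b2, a, fun x => ?_⟩
  simp only [vE, linF, nsq]
  ring

def W (D : ℕ) : Submodule ℝ (E3 → ℝ) := Submodule.span ℝ
  {f | ∃ e b c d, e ≤ 1 ∧ e + b + c + d ≤ D ∧
    f = fun x => vE x 1 ^ e * vE x 2 ^ b * vE x 3 ^ c * vE x 4 ^ d * vE x 0 ^ (D - (e + b + c + d))}

theorem gen_mem {D e b c d : ℕ} (he : e ≤ 1) (h : e + b + c + d ≤ D) :
    (fun x => vE x 1 ^ e * vE x 2 ^ b * vE x 3 ^ c * vE x 4 ^ d * vE x 0 ^ (D - (e + b + c + d))) ∈ W D :=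
  Submodule.subset_span ⟨e, b, c, d, he, h, rfl⟩

theorem gen_mem' {D e b c d n : ℕ} (he : e ≤ 1) (h : e + b + c + d + n = D) (f : E3 → ℝ)
    (hf : ∀ x, f x = vE x 1 ^ e * vE x 2 ^ b * vE x 3 ^ c * vE x 4 ^ d * vE x 0 ^ n) : f ∈ W D := by
  have h1 : n = D - (e + b + c + d) := by omega
  have h2 : f = (fun x => vE x 1 ^ e * vE x 2 ^ b * vE x 3 ^ c * vE x 4 ^ d * vE x 0 ^ (D - (e + b + c + d))) := by
    funext x; rw [hf x, ← h1]
  rw [h2]
  exact gen_mem he (by omega)

theorem mul_gen (D i : ℕ) (hi : i < 5) (f : E3 → ℝ) (hf : f ∈ W D) : (fun x => vE x i * f x) ∈ W (D + 1) := by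
  unfold W at hf
  induction hf using Submodule.span_induction with
  | mem f hf =>
    obtain ⟨e, b, c, d, he, h, rfl⟩ := hf
    obtain ⟨n, hn⟩ : ∃ n, n = D - (e + b + c + d) := ⟨_, rfl⟩
    rw [← hn]
    interval_cases i
    · exact gen_mem' (e := e) (b := b) (c := c) (d := d) (n := n + 1) he (by omega) _ (fun x => by ring)
    · interval_cases e
      · exact gen_mem' (e := 1) (b := b) (c := c) (d := d) (n := n) le_rfl (by omega) _ (fun x => by ring)
      · have g0 := gen_mem' (D := D + 1) (e := 0) (b := b) (c := c) (d := d + 1) (n := n + 1) (by norm_num) (by omega)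
          (fun x => vE x 1 ^ 0 * vE x 2 ^ b * vE x 3 ^ c * vE x 4 ^ (d + 1) * vE x 0 ^ (n + 1)) (fun x => rfl)
        have g2 := gen_mem' (D := D + 1) (e := 0) (b := b + 2) (c := c) (d := d) (n := n) (by norm_num) (by omega)
          (fun x => vE x 1 ^ 0 * vE x 2 ^ (b + 2) * vE x 3 ^ c * vE x 4 ^ d * vE x 0 ^ n) (fun x => rfl)
        have g3 := gen_mem' (D := D + 1) (e := 0) (b := b) (c := c + 2) (d := d) (n := n) (by norm_num) (by omega)
          (fun x => vE x 1 ^ 0 * vE x 2 ^ b * vE x 3 ^ (c + 2) * vE x 4 ^ d * vE x 0 ^ n) (fun x => rfl)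
        have := Submodule.sub_mem _ (Submodule.sub_mem _ g0 g2) g3
        convert this using 1
        funext x
        simp only [Pi.sub_apply]
        have hr := vE_rel x
        linear_combination (vE x 2 ^ b * vE x 3 ^ c * vE x 4 ^ d * vE x 0 ^ n) * hr
    · exact gen_mem' (e := e) (b := b + 1) (c := c) (d := d) (n := n) he (by omega) _ (fun x => by ring)
    · exact gen_mem' (e := e) (b := b) (c := c + 1) (d := d) (n := n) he (by omega) _ (fun x => by ring)
    · exact gen_mem' (e := e) (b := b) (c := c) (d := d + 1) (n := n) he (by omega) _ (fun x => by ring)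
  | zero => simp only [Pi.zero_apply, mul_zero]; exact Submodule.zero_mem _
  | add f g _ _ hf hg =>
    have := Submodule.add_mem _ hf hg
    convert this using 1
    funext x; simp only [Pi.add_apply]; ring
  | smul t f _ hf =>
    have := Submodule.smul_mem _ t hf
    convert this using 1
    funext x; simp only [Pi.smul_apply, smul_eq_mul]; ring

theorem lin_pow_le : ∀ n : ℕ, Lin ^ n ≤ W n
  | 0 => by
    intro f hf
    rw [pow_zero, Submodule.mem_one] at hf
    obtain ⟨r, rfl⟩ := hf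
    have := Submodule.smul_mem _ r (gen_mem' (D := 0) (e := 0) (b := 0) (c := 0) (d := 0) (n := 0) (by norm_num) rfl
      (fun _ => 1) (fun x => by simp))
    convert this using 1
    funext x
    simp
  | n + 1 => by
    rw [pow_succ, Submodule.mul_le]
    intro f hf g hg
    have hf' := lin_pow_le n hf
    obtain ⟨c0, c1, c2, c3, c4, hc⟩ := lin_vE g hg
    have h0 := Submodule.smul_mem _ c0 (mul_gen n 0 (by norm_num) f hf')
    have h1 := Submodule.smul_mem _ c1 (mul_gen n 1 (by norm_num) f hf')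
    have h2 := Submodule.smul_mem _ c2 (mul_gen n 2 (by norm_num) f hf')
    have h3 := Submodule.smul_mem _ c3 (mul_gen n 3 (by norm_num) f hf')
    have h4 := Submodule.smul_mem _ c4 (mul_gen n 4 (by norm_num) f hf')
    have := Submodule.add_mem _ (Submodule.add_mem _ (Submodule.add_mem _ (Submodule.add_mem _ h0 h1) h2) h3) h4
    convert this using 1
    funext x
    simp only [Pi.mul_apply, Pi.add_apply, Pi.smul_apply, smul_eq_mul, hc x]
    ring

/-- Every function in `Lin ^ 4` is a combination of the 55 monomials in `vE`. -/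
theorem lin4_coeffs (f : E3 → ℝ) (hf : f ∈ Lin ^ 4) :
    ∃ c : Fin 55 → ℝ, ∀ x, f x = ∑ k : Fin 55, c k * mono (mk k) (vE x) := by
  have h1 := lin_pow_le 4 hf
  have h2 : W 4 ≤ Submodule.span ℝ (Set.range fun k : Fin 55 => fun x => mono (mk k) (vE x)) := by
    unfold W
    rw [Submodule.span_le]
    rintro g ⟨e, b, c, d, he, h, rfl⟩
    obtain ⟨k, hk2⟩ := quad_mem ⟨e, by omega⟩ ⟨b, by omega⟩ ⟨c, by omega⟩ ⟨d, by omega⟩ h
    apply Submodule.subset_span
    refine ⟨k, ?_⟩
    funext x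
    simp only [hk2]
    exact mono_quad _ he h
  obtain ⟨c, hc⟩ := (Submodule.mem_span_range_iff_exists_fun ℝ).mp (h2 h1)
  refine ⟨c, fun x => ?_⟩
  rw [← hc, Finset.sum_apply]
  simp

end Pool.Agent.Y492.Chess
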