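import Pool.Agent.Y492.Chess.Sys

/-! The integer checks, evaluated in the kernel. -/

namespace Pool.Agent.Y492.Chess

theorem chk_0 : (List.range' 0 12).all chk = true := by decide +kernel
theorem chk_1 : (List.range' 12 12).all chk = true := by decide +kernel
theorem chk_2 : (List.range' 24 12).all chk = true := by decide +kernel
theorem chk_3 : (List.range' 36 12).all chk = true := by decide +kernel
theorem chk_4 : (List.range' 48 12).all chk = true := by decide +kernel
theorem chk_5 : (List.range' 60 12).all chk = true := by decide +kernel
theorem chk_6 : (List.range' 72 12).all chk = true := by decide +kernel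
theorem chk_7 : (List.range' 84 12).all chk = true := by decide +kernel
theorem chk_8 : (List.range' 96 12).all chk = true := by decide +kernel
theorem chk_9 : (List.range' 108 12).all chk = true := by decide +kernel
theorem chk_10 : (List.range' 120 12).all chk = true := by decide +kernel
theorem chk_11 : (List.range' 132 12).all chk = true := by decide +kernel
theorem chkN_0 : (List.range' 0 13).all chkN = true := by decide +kernel
theorem chkN_1 : (List.range' 13 13).all chkN = true := by decide +kernel
theorem chkN_2 : (List.range' 26 13).all chkN = true := by decide +kernel
theorem chkN_3 : (List.range' 39 13).all chkN = true := by decide +kernel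
theorem chkN_4 : (List.range' 52 13).all chkN = true := by decide +kernel
theorem chkN_5 : (List.range' 65 13).all chkN = true := by decide +kernel
theorem chkN_6 : (List.range' 78 13).all chkN = true := by decide +kernel
theorem chkN_7 : (List.range' 91 13).all chkN = true := by decide +kernel
theorem chkN_8 : (List.range' 104 13).all chkN = true := by decide +kernel
theorem chkN_9 : (List.range' 117 13).all chkN = true := by decide +kernel
theorem chkN_10 : (List.range' 130 13).all chkN = true := by decide +kernel
theorem chkN_11 : (List.range' 143 13).all chkN = true := by decide +kernel
theorem len_rows : yrows.length = 156 := by decide +kernel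

theorem chk_blk (q : ℕ) (hq : q < 12) : (List.range' (12 * q) 12).all chk = true := by
  interval_cases q
  · exact chk_0
  · exact chk_1
  · exact chk_2
  · exact chk_3
  · exact chk_4
  · exact chk_5
  · exact chk_6
  · exact chk_7
  · exact chk_8
  · exact chk_9
  · exact chk_10
  · exact chk_11

theorem chkN_blk (q : ℕ) (hq : q < 12) : (List.range' (13 * q) 13).all chkN = true := by
  interval_cases q
  · exact chkN_0
  · exact chkN_1
  · exact chkN_2
  · exact chkN_3
  · exact chkN_4
  · exact chkN_5
  · exact chkN_6
  · exact chkN_7
  · exact chkN_8
  · exact chkN_9
  · exact chkN_10
  · exact chkN_11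

theorem chk_all (r : ℕ) (hr : r < ne) : chk r = true := by
  have e : ne = 144 := rfl
  rw [e] at hr
  have h := chk_blk (r / 12) (by omega)
  rw [List.all_eq_true] at h
  exact h r (by rw [List.mem_range'_1]; omega)

theorem chkN_all (k : ℕ) : absL (yrow k) ≤ 10 ^ 4 * 10 ^ 6 := by
  rcases lt_or_ge k 156 with hk | hk
  · have h0 := chkN_blk (k / 13) (by omega)
    rw [List.all_eq_true] at h0
    have h : chkN k = true := h0 k (by rw [List.mem_range'_1]; omega)
    simpa [chkN] using h
  · have : yrow k = [] := by
      unfold yrow
      rw [List.getD_eq_default]
      rw [len_rows]; exact hk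
    rw [this]
    simp [absL]

end Pool.Agent.Y492.Chess
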