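import Pool.Agent.Y492.Chess.Checks

/-! Existence of an exact solution near the approximate one. -/

set_option autoImplicit false

open Finset H537R3.Chess

namespace Pool.Agent.Y492.Chess

theorem der_conv (q : QP) (z y : ℕ → ℤ) :
    ((q.der (10 ^ 20 : ℤ) z y : ℤ) : ℝ)
      = 10 ^ 26 * q.der 1 (fun k => (z k : ℝ) / 10 ^ 20) (fun k => (y k : ℝ) / 10 ^ 6) := by
  have e1 := QP.der_scale q ((10 ^ 20 : ℤ) : ℝ) (10 ^ 6) (fun k => (z k : ℝ) / 10 ^ 20)
    (fun k => (y k : ℝ) / 10 ^ 6)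
  have e2 : (fun k => ((10 ^ 20 : ℤ) : ℝ) * ((z k : ℝ) / 10 ^ 20)) = fun k => (z k : ℝ) := by
    funext k; push_cast; ring
  have e3 : (fun k => (10 : ℝ) ^ 6 * ((y k : ℝ) / 10 ^ 6)) = fun k => (y k : ℝ) := by
    funext k; field_simp
  rw [e2, e3] at e1
  rw [QP.der_cast, e1]
  push_cast
  norm_num

theorem ev_conv (q : QP) (z : ℕ → ℤ) :
    ((q.ev (10 ^ 20 : ℤ) z : ℤ) : ℝ)
      = 10 ^ 40 * q.ev 1 (fun k => (z k : ℝ) / 10 ^ 20) := by
  have e1 := QP.ev_scale q ((10 ^ 20 : ℤ) : ℝ) (fun k => (z k : ℝ) / 10 ^ 20)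
  have e2 : (fun k => ((10 ^ 20 : ℤ) : ℝ) * ((z k : ℝ) / 10 ^ 20)) = fun k => (z k : ℝ) := by
    funext k; push_cast; ring
  rw [e2] at e1
  rw [QP.ev_cast, e1]
  push_cast
  norm_num

/-- the approximate configuration -/
noncomputable def za (k : ℕ) : ℝ := (zi k : ℝ) / 10 ^ 20

theorem hza : (fun k => ((zi k : ℤ) : ℝ) / 10 ^ 20) = za := rfl

theorem row_bound (i : Fin ne) :
    ∑ j : Fin ne, |(eqi i).der 1 za (fun k => ((yrow k).getD j 0 : ℝ) / 10 ^ 6) -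
      if i = j then 1 else 0| ≤ 1 / 100 := by
  have h := chk_all i i.2
  simp only [chk, Bool.and_eq_true, decide_eq_true_eq] at h
  obtain ⟨⟨⟨hlen, ha⟩, -⟩, -⟩ := h
  rw [← errL_eq] at ha
  simp only [zero_add] at ha
  have ha2 : ∑ j : Fin ne, |(drow (10 ^ 20) (eqi i)).getD j 0 - if (i : ℕ) = (j : ℕ) then 10 ^ 26 else 0|
      ≤ 10 ^ 24 := by
    refine le_of_eq_of_le ?_ ha
    exact (Fin.sum_congr' (fun j : Fin ne => |(drow (10 ^ 20) (eqi i)).getD j 0 -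
      if (i : ℕ) = (j : ℕ) then 10 ^ 26 else 0|) hlen).symm
  have ha' : ((∑ j : Fin ne, |(drow (10 ^ 20) (eqi i)).getD j 0 -
      if (i : ℕ) = (j : ℕ) then 10 ^ 26 else 0| : ℤ) : ℝ) ≤ ((10 ^ 24 : ℤ) : ℝ) := by
    exact_mod_cast ha2
  rw [Int.cast_sum] at ha'
  have h3 : ∑ j : Fin ne, |(eqi i).der 1 za (fun k => ((yrow k).getD j 0 : ℝ) / 10 ^ 6) -
      if i = j then 1 else 0| = (∑ j : Fin ne, ((|(drow (10 ^ 20) (eqi i)).getD j 0 -
      if (i : ℕ) = (j : ℕ) then 10 ^ 26 else 0| : ℤ) : ℝ)) / 10 ^ 26 := by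
    rw [Finset.sum_div]
    refine Finset.sum_congr rfl fun j _ => ?_
    rw [Int.cast_abs, Int.cast_sub, drow_getD, der_conv, hza, eq_div_iff (by norm_num)]
    rw [show (10 : ℝ) ^ 26 = |(10 : ℝ) ^ 26| by norm_num, ← abs_mul,
      abs_of_pos (show (0:ℝ) < 10 ^ 26 by norm_num)]
    congr 1
    by_cases hij : i = j
    · simp only [hij, if_true]; push_cast; ring
    · have : (i : ℕ) ≠ (j : ℕ) := fun h => hij (Fin.ext h)
      simp only [hij, this, if_false]; push_cast; ring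
  rw [h3]
  refine (div_le_div_of_nonneg_right ha' (by norm_num)).trans ?_
  norm_num

theorem res_bound (i : Fin ne) : |(eqi i).ev 1 za| ≤ (1 / 10 ^ 16) / 2 := by
  have h := chk_all i i.2
  simp only [chk, Bool.and_eq_true, decide_eq_true_eq] at h
  obtain ⟨-, hb⟩ := h
  have hb' : ((|(eqi i).ev (10 ^ 20 : ℤ) zi| : ℤ) : ℝ) ≤ ((10 ^ 24 / 2 : ℤ) : ℝ) := by exact_mod_cast hb
  rw [Int.cast_abs, ev_conv, abs_mul, abs_of_pos (show (0:ℝ) < 10 ^ 40 by norm_num)] at hb'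
  have h9 : ((10 ^ 24 / 2 : ℤ) : ℝ) = 10 ^ 40 * (1 / 10 ^ 16 / 2) := by norm_num
  rw [h9] at hb'
  exact le_of_mul_le_mul_left hb' (by norm_num)

theorem mu_bound (i : Fin ne) : (muSum (eqi i) : ℝ) ≤ 4 := by
  have h := chk_all i i.2
  simp only [chk, Bool.and_eq_true, decide_eq_true_eq] at h
  obtain ⟨⟨-, hb⟩, -⟩ := h
  exact_mod_cast hb

/-- An exact configuration near the approximate one. -/
structure Cfg (w : ℕ → ℝ) : Prop where
  near : ∀ k, |w k - za k| ≤ 1 / 10 ^ 12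
  eq : ∀ i < na, ∀ j < nb, ∀ q ∈ eqs i j, q.ev 1 w = 0

theorem exists_cfg : ∃ w : ℕ → ℝ, Cfg w := by
  obtain ⟨w, hw, hd⟩ := nk (n := ne) (fun i => eqi i) za
    (fun k j => ((yrow k).getD j 0 : ℝ) / 10 ^ 6) (10 ^ 4) (1 / 10 ^ 16) (by norm_num) (by
      intro k
      have h1 := (absL_le (yrow k) ne).trans (chkN_all k)
      have h2 : ((∑ j : Fin ne, |(yrow k).getD j 0| : ℤ) : ℝ) ≤ ((10 ^ 4 * 10 ^ 6 : ℤ) : ℝ) := by
        exact_mod_cast h1
      rw [Int.cast_sum] at h2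
      have h3 : ∑ j : Fin ne, |((yrow k).getD j 0 : ℝ) / 10 ^ 6|
          = (∑ j : Fin ne, ((|(yrow k).getD j 0| : ℤ) : ℝ)) / 10 ^ 6 := by
        rw [Finset.sum_div]
        refine Finset.sum_congr rfl fun j _ => ?_
        rw [abs_div, Int.cast_abs, abs_of_pos (show (0:ℝ) < 10 ^ 6 by norm_num)]
      rw [h3, div_le_iff₀ (by norm_num)]
      exact h2.trans (by push_cast; norm_num)) (by norm_num) (by
      intro i
      have h1 := row_bound i
      have h2 := mu_bound i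
      have h3 : (muSum (eqi i) : ℝ) * (2 * (10 ^ 4 * (1 / 10 ^ 16)) * 10 ^ 4)
          ≤ 4 * (2 * (10 ^ 4 * (1 / 10 ^ 16)) * 10 ^ 4) :=
        mul_le_mul_of_nonneg_right h2 (by norm_num)
      have h4 : (4 * (2 * (10 ^ 4 * (1 / 10 ^ 16)) * 10 ^ 4) : ℝ) ≤ 1 / 100 := by norm_num
      linarith) (fun i => res_bound i)
  refine ⟨w, fun k => (hd k).trans (by norm_num), ?_⟩
  intro i hi j hj q hq
  obtain ⟨t, ht, rfl⟩ := List.mem_iff_getElem.mp hq
  have hlen : (eqs i j).length = 4 := rfl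
  rw [hlen] at ht
  have hr : 4 * (nb * i + j) + t < ne := by
    have : nb * i + j < na * nb := by
      have h1 : nb * i + nb ≤ nb * na := by
        have := Nat.mul_le_mul_left nb (show i + 1 ≤ na from hi)
        linarith
      rw [mul_comm na nb]; omega
    unfold ne; omega
  have := hw ⟨4 * (nb * i + j) + t, hr⟩
  have e1 : (4 * (nb * i + j) + t) / 4 = nb * i + j := by omega
  have e2 : (4 * (nb * i + j) + t) % 4 = t := by omega
  have hnb : 0 < nb := by decide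
  have e3 : (nb * i + j) / nb = i := by
    rw [Nat.mul_add_div hnb, Nat.div_eq_of_lt hj, add_zero]
  have e4 : (nb * i + j) % nb = j := by
    rw [Nat.mul_add_mod, Nat.mod_eq_of_lt hj]
  simp only [eqi, e1, e2, e3, e4] at this
  rw [List.getD_eq_getElem _ _ (by rw [hlen]; exact ht)] at this
  exact this

end Pool.Agent.Y492.Chess
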