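import Pool.Agent.Y492.Chess.StarDefs

/-! No nonzero combination of the 55 monomials vanishes at the 55 points. -/

set_option autoImplicit false

open Finset H537R3.Chess

namespace Pool.Agent.Y492.Chess

theorem sum_range_map' {M : Type*} [AddCommMonoid M] (f : ℕ → M) (n : ℕ) :
    ((List.range n).map f).sum = ∑ j : Fin n, f j := by
  induction n with
  | zero => simp
  | succ n ih => rw [List.range_succ, List.map_append, List.sum_append, ih, Fin.sum_univ_castSucc]; simp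

theorem dot_map (f : ℕ → ℤ) : ∀ (n a : ℕ) (l : List ℤ),
    dot l ((List.range' a n).map f) = ∑ j : Fin n, l.getD j 0 * f (a + j)
  | 0, a, l => by cases l <;> simp [dot]
  | n + 1, a, [] => by simp [dot]
  | n + 1, a, x :: l => by
    rw [List.range'_succ, List.map_cons, dot, dot_map f n (a + 1) l, Fin.sum_univ_succ]
    simp only [Fin.val_zero, List.getD_cons_zero, add_zero, Fin.val_succ, List.getD_cons_succ]
    congr 1
    refine Finset.sum_congr rfl fun j _ => ?_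
    rw [show a + 1 + (j : ℕ) = a + ((j : ℕ) + 1) by ring]

theorem mul_err {a a' b b' A B e f : ℝ} (ha : |a| ≤ A) (hb' : |b'| ≤ B)
    (h1 : |a - a'| ≤ e) (h2 : |b - b'| ≤ f) : |a * b - a' * b'| ≤ A * f + e * B := by
  have e1 : a * b - a' * b' = a * (b - b') + (a - a') * b' := by ring
  rw [e1]
  refine (abs_add_le _ _).trans ?_
  rw [abs_mul, abs_mul]
  have := mul_le_mul ha h2 (abs_nonneg _) ((abs_nonneg _).trans ha)
  have := mul_le_mul h1 hb' (abs_nonneg _) ((abs_nonneg _).trans h1)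
  linarith

theorem mono_err (v w : ℕ → ℝ) (e : ℝ) (hv : ∀ i, |v i| ≤ 3) (hw : ∀ i, |w i| ≤ 3)
    (h : ∀ i, |v i - w i| ≤ e) (m : ℕ × ℕ × ℕ × ℕ) : |mono m v - mono m w| ≤ 108 * e := by
  unfold mono
  have h1 := mul_err (hv m.1) (hw m.2.1) (h m.1) (h m.2.1)
  have b1 : |v m.1 * v m.2.1| ≤ 9 := by
    rw [abs_mul]
    nlinarith [hv m.1, hv m.2.1, abs_nonneg (v m.1), abs_nonneg (v m.2.1)]
  have h2 := mul_err b1 (hw m.2.2.1) h1 (h m.2.2.1)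
  have b2 : |v m.1 * v m.2.1 * v m.2.2.1| ≤ 27 := by
    rw [abs_mul]
    nlinarith [hv m.2.2.1, abs_nonneg (v m.1 * v m.2.1), abs_nonneg (v m.2.2.1)]
  have h3 := mul_err b2 (hw m.2.2.2) h2 (h m.2.2.2)
  linarith

theorem mono_scale (m : ℕ × ℕ × ℕ × ℕ) (t : ℝ) (v : ℕ → ℝ) :
    mono m (fun i => t * v i) = t ^ 4 * mono m v := by
  unfold mono; ring

theorem mono_cast (m : ℕ × ℕ × ℕ × ℕ) (v : ℕ → ℤ) :
    ((mono m v : ℤ) : ℝ) = mono m (fun i => (v i : ℝ)) := by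
  unfold mono; push_cast; rfl

/-- exact coordinates `1, x, y, z, |x|²` of a point -/
def pr (w : ℕ → ℝ) (c : ℕ × ℕ × ℤ × ℤ) (i : ℕ) : ℝ :=
  match i with
  | 0 => 1
  | 1 => (c.2.2.1 : ℝ) * w (ip c.1 c.2.1 0)
  | 2 => (c.2.2.2 : ℝ) * w (ip c.1 c.2.1 1)
  | 3 => w (ip c.1 c.2.1 2)
  | _ => ((c.2.2.1 : ℝ) * w (ip c.1 c.2.1 0)) ^ 2 + ((c.2.2.2 : ℝ) * w (ip c.1 c.2.1 1)) ^ 2 +
      w (ip c.1 c.2.1 2) ^ 2

theorem floor_err (a b : ℤ) (hb : 0 < b) : |(a : ℝ) / b - ((a / b : ℤ) : ℝ)| ≤ 1 := by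
  have h1 := Int.emod_add_mul_ediv a b
  have h2 := Int.emod_nonneg a hb.ne'
  have h3 := Int.emod_lt_of_pos a hb
  have hb' : (0 : ℝ) < b := by exact_mod_cast hb
  have e : (a : ℝ) / b - ((a / b : ℤ) : ℝ) = ((a % b : ℤ) : ℝ) / b := by
    rw [eq_div_iff hb'.ne', sub_mul, div_mul_cancel₀ _ hb'.ne']
    have : (a : ℝ) = ((a % b : ℤ) : ℝ) + (b : ℝ) * ((a / b : ℤ) : ℝ) := by exact_mod_cast h1.symm
    linarith
  have h2' : (0 : ℝ) ≤ ((a % b : ℤ) : ℝ) := by exact_mod_cast h2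
  have h3' : ((a % b : ℤ) : ℝ) ≤ b := by exact_mod_cast h3.le
  rw [e, abs_of_nonneg (div_nonneg h2' hb'.le), div_le_one hb']
  exact h3'

theorem coord_err {w : ℕ → ℝ} (hw : Cfg w) (k : ℕ) :
    |w k - (((zi k / 10 ^ 8 : ℤ) : ℤ) : ℝ) / 10 ^ 12| ≤ 2 / 10 ^ 12 := by
  have h1 := hw.near k
  have h2 := floor_err (zi k) (10 ^ 8) (by norm_num)
  have e : w k - ((zi k / 10 ^ 8 : ℤ) : ℝ) / 10 ^ 12
      = (w k - za k) + ((zi k : ℝ) / ((10 ^ 8 : ℤ) : ℝ) - ((zi k / 10 ^ 8 : ℤ) : ℝ)) * (1 / 10 ^ 12) := by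
    unfold za; push_cast; ring
  rw [e]
  refine (abs_add_le _ _).trans ?_
  rw [abs_mul, abs_of_pos (show (0 : ℝ) < 1 / 10 ^ 12 by positivity)]
  have h3 := mul_le_mul_of_nonneg_right h2 (show (0 : ℝ) ≤ 1 / 10 ^ 12 by positivity)
  have h4 : (1 / 10 ^ 12 + 1 * (1 / 10 ^ 12) : ℝ) = 2 / 10 ^ 12 := by norm_num
  linarith

theorem sq_err {x X : ℝ} (h : |x - X| ≤ 2 / 10 ^ 12) (hX : |X| ≤ 2) : |x ^ 2 - X ^ 2| ≤ 9 / 10 ^ 12 := by
  have e : x ^ 2 - X ^ 2 = (x - X) * (x - X + 2 * X) := by ring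
  rw [e, abs_mul]
  have h1 : |x - X + 2 * X| ≤ |x - X| + 2 * |X| := by
    refine (abs_add_le _ _).trans ?_
    rw [abs_mul, abs_of_pos (show (0 : ℝ) < 2 by norm_num)]
  have h2 : |x - X + 2 * X| ≤ 9 / 2 := by
    have : (2 / 10 ^ 12 : ℝ) ≤ 1 / 2 := by norm_num
    linarith
  calc |x - X| * |x - X + 2 * X| ≤ 2 / 10 ^ 12 * (9 / 2) :=
        mul_le_mul h h2 (abs_nonneg _) (by positivity)
    _ = _ := by norm_num

/-- the facts checked for the point `j` -/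
theorem pChk_spec (j : ℕ) (hj : j < 55) : (∀ i, |pz (pj j) i| ≤ 2 * 10 ^ 12) ∧
    (pj j).1 < na ∧ (pj j).2.1 < nb ∧
    (((pj j).1 < 4 ∧ (pj j).2.2.2 = 1 ∧ ((pj j).2.2.1 = 1 ∨ (pj j).2.2.1 = -1)) ∨
     ((pj j).2.1 < 4 ∧ (pj j).2.2.1 = 1 ∧ ((pj j).2.2.2 = 1 ∨ (pj j).2.2.2 = -1))) := by
  have h1 := pChk_all
  rw [List.all_eq_true] at h1
  have h2 := h1 j (List.mem_range.mpr hj)
  simp only [pChk, Bool.and_eq_true, Bool.or_eq_true, decide_eq_true_eq] at h2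
  obtain ⟨⟨⟨h3, h4⟩, h5⟩, h6⟩ := h2
  refine ⟨?_, h4, h5, ?_⟩
  · intro i
    rw [List.all_eq_true] at h3
    have h7 : ∀ i < 5, |pz (pj j) i| ≤ 2 * 10 ^ 12 := by
      intro i hi
      have := h3 i (List.mem_range.mpr hi)
      simpa using this
    rcases lt_or_ge i 5 with hi | hi
    · exact h7 i hi
    · obtain ⟨m, rfl⟩ : ∃ m, i = m + 5 := ⟨i - 5, by omega⟩
      exact h7 4 (by norm_num)
  · rcases h6 with ⟨⟨a, b⟩, c⟩ | ⟨⟨a, b⟩, c⟩
    · exact Or.inl ⟨a, b, c⟩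
    · exact Or.inr ⟨a, b, c⟩

theorem abs_sign {s : ℤ} (h : s = 1 ∨ s = -1) : |(s : ℝ)| = 1 := by
  rcases h with rfl | rfl <;> simp

theorem pr_err {w : ℕ → ℝ} (hw : Cfg w) {j : ℕ} (hj : j < 55) (i : ℕ) :
    |pr w (pj j) i - (pz (pj j) i : ℝ) / 10 ^ 12| ≤ 1 / 10 ^ 10 := by
  obtain ⟨hb, -, -, hs⟩ := pChk_spec j hj
  have hsx : |((pj j).2.2.1 : ℝ)| = 1 := by
    rcases hs with ⟨-, -, h⟩ | ⟨-, h, -⟩
    · exact abs_sign h
    · rw [h]; simp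
  have hsy : |((pj j).2.2.2 : ℝ)| = 1 := by
    rcases hs with ⟨-, h, -⟩ | ⟨-, -, h⟩
    · rw [h]; simp
    · exact abs_sign h
  generalize pj j = c at hb hs hsx hsy ⊢
  have k1 := coord_err hw (ip c.1 c.2.1 0)
  have k2 := coord_err hw (ip c.1 c.2.1 1)
  have k3 := coord_err hw (ip c.1 c.2.1 2)
  have x1 : |pr w c 1 - (pz c 1 : ℝ) / 10 ^ 12| ≤ 2 / 10 ^ 12 := by
    have e : pr w c 1 - (pz c 1 : ℝ) / 10 ^ 12 = (c.2.2.1 : ℝ) *
        (w (ip c.1 c.2.1 0) - (((zi (ip c.1 c.2.1 0) / 10 ^ 8 : ℤ) : ℤ) : ℝ) / 10 ^ 12) := by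
      simp only [pr, pz]; push_cast; ring
    rw [e, abs_mul, hsx, one_mul]; exact k1
  have x2 : |pr w c 2 - (pz c 2 : ℝ) / 10 ^ 12| ≤ 2 / 10 ^ 12 := by
    have e : pr w c 2 - (pz c 2 : ℝ) / 10 ^ 12 = (c.2.2.2 : ℝ) *
        (w (ip c.1 c.2.1 1) - (((zi (ip c.1 c.2.1 1) / 10 ^ 8 : ℤ) : ℤ) : ℝ) / 10 ^ 12) := by
      simp only [pr, pz]; push_cast; ring
    rw [e, abs_mul, hsy, one_mul]; exact k2
  have x3 : |pr w c 3 - (pz c 3 : ℝ) / 10 ^ 12| ≤ 2 / 10 ^ 12 := k3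
  have hbr : ∀ i, |(pz c i : ℝ) / 10 ^ 12| ≤ 2 := by
    intro i
    have h4 : ((|pz c i| : ℤ) : ℝ) ≤ ((2 * 10 ^ 12 : ℤ) : ℝ) := by exact_mod_cast hb i
    rw [Int.cast_abs] at h4
    rw [abs_div, abs_of_pos (show (0 : ℝ) < 10 ^ 12 by norm_num), div_le_iff₀ (by norm_num)]
    exact h4.trans (by norm_num)
  have hsmall : (2 / 10 ^ 12 : ℝ) ≤ 1 / 10 ^ 10 := by norm_num
  match i with
  | 0 =>
    have : pr w c 0 - (pz c 0 : ℝ) / 10 ^ 12 = 0 := by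
      simp only [pr, pz]; push_cast; norm_num
    rw [this, abs_zero]; positivity
  | 1 => exact x1.trans hsmall
  | 2 => exact x2.trans hsmall
  | 3 => exact x3.trans hsmall
  | n + 4 =>
    have q1 := sq_err x1 (hbr 1)
    have q2 := sq_err x2 (hbr 2)
    have q3 := sq_err x3 (hbr 3)
    have q4 := floor_err (pz c 1 ^ 2 + pz c 2 ^ 2 + pz c 3 ^ 2) (10 ^ 12) (by norm_num)
    have e4 : pz c (n + 4) = (pz c 1 ^ 2 + pz c 2 ^ 2 + pz c 3 ^ 2) / 10 ^ 12 := rfl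
    have e5 : pr w c (n + 4) = pr w c 1 ^ 2 + pr w c 2 ^ 2 + pr w c 3 ^ 2 := rfl
    rw [e4, e5]
    have e6 : pr w c 1 ^ 2 + pr w c 2 ^ 2 + pr w c 3 ^ 2
        - (((pz c 1 ^ 2 + pz c 2 ^ 2 + pz c 3 ^ 2) / 10 ^ 12 : ℤ) : ℝ) / 10 ^ 12
        = (pr w c 1 ^ 2 - ((pz c 1 : ℝ) / 10 ^ 12) ^ 2) + (pr w c 2 ^ 2 - ((pz c 2 : ℝ) / 10 ^ 12) ^ 2)
          + (pr w c 3 ^ 2 - ((pz c 3 : ℝ) / 10 ^ 12) ^ 2)
          + (((pz c 1 ^ 2 + pz c 2 ^ 2 + pz c 3 ^ 2 : ℤ) : ℝ) / ((10 ^ 12 : ℤ) : ℝ)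
            - (((pz c 1 ^ 2 + pz c 2 ^ 2 + pz c 3 ^ 2) / 10 ^ 12 : ℤ) : ℝ)) * (1 / 10 ^ 12) := by
      push_cast; ring
    rw [e6]
    have t1 := abs_add_le ((pr w c 1 ^ 2 - ((pz c 1 : ℝ) / 10 ^ 12) ^ 2) + (pr w c 2 ^ 2 - ((pz c 2 : ℝ) / 10 ^ 12) ^ 2)
          + (pr w c 3 ^ 2 - ((pz c 3 : ℝ) / 10 ^ 12) ^ 2))
          ((((pz c 1 ^ 2 + pz c 2 ^ 2 + pz c 3 ^ 2 : ℤ) : ℝ) / ((10 ^ 12 : ℤ) : ℝ)
            - (((pz c 1 ^ 2 + pz c 2 ^ 2 + pz c 3 ^ 2) / 10 ^ 12 : ℤ) : ℝ)) * (1 / 10 ^ 12))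
    have t2 := abs_add_le ((pr w c 1 ^ 2 - ((pz c 1 : ℝ) / 10 ^ 12) ^ 2) + (pr w c 2 ^ 2 - ((pz c 2 : ℝ) / 10 ^ 12) ^ 2))
          (pr w c 3 ^ 2 - ((pz c 3 : ℝ) / 10 ^ 12) ^ 2)
    have t3 := abs_add_le (pr w c 1 ^ 2 - ((pz c 1 : ℝ) / 10 ^ 12) ^ 2) (pr w c 2 ^ 2 - ((pz c 2 : ℝ) / 10 ^ 12) ^ 2)
    have t4 : |(((pz c 1 ^ 2 + pz c 2 ^ 2 + pz c 3 ^ 2 : ℤ) : ℝ) / ((10 ^ 12 : ℤ) : ℝ)
            - (((pz c 1 ^ 2 + pz c 2 ^ 2 + pz c 3 ^ 2) / 10 ^ 12 : ℤ) : ℝ)) * (1 / 10 ^ 12)| ≤ 1 / 10 ^ 12 := by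
      rw [abs_mul, abs_of_pos (show (0 : ℝ) < 1 / 10 ^ 12 by positivity)]
      have := mul_le_mul_of_nonneg_right q4 (show (0 : ℝ) ≤ 1 / 10 ^ 12 by positivity)
      linarith
    have t5 : (9 / 10 ^ 12 + 9 / 10 ^ 12 + 9 / 10 ^ 12 + 1 / 10 ^ 12 : ℝ) ≤ 1 / 10 ^ 10 := by norm_num
    linarith

theorem star_inj {w : ℕ → ℝ} (hw : Cfg w)
    (c : Fin 55 → ℝ) (h : ∀ j < 55, ∑ k : Fin 55, c k * mono (mk k) (pr w (pj j)) = 0) : c = 0 := by
  obtain ⟨v, hv⟩ : ∃ v : ℕ → ℕ → ℝ, v = fun j i => (pz (pj j) i : ℝ) / 10 ^ 12 := ⟨_, rfl⟩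
  have hb : ∀ j < 55, ∀ i, |v j i| ≤ 2 := by
    intro j hj i
    have h4 : ((|pz (pj j) i| : ℤ) : ℝ) ≤ ((2 * 10 ^ 12 : ℤ) : ℝ) := by exact_mod_cast (pChk_spec j hj).1 i
    rw [Int.cast_abs] at h4
    rw [hv]
    show |(pz (pj j) i : ℝ) / 10 ^ 12| ≤ 2
    rw [abs_div, abs_of_pos (show (0 : ℝ) < 10 ^ 12 by norm_num), div_le_iff₀ (by norm_num)]
    exact h4.trans (by norm_num)
  have hd : ∀ j < 55, ∀ i, |pr w (pj j) i - v j i| ≤ 1 / 10 ^ 10 := by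
    intro j hj i
    rw [hv]
    exact pr_err hw hj i
  have hm : ∀ j < 55, ∀ k, |mono (mk k) (pr w (pj j)) - mono (mk k) (v j)| ≤ 108 * (1 / 10 ^ 10) := by
    intro j hj k
    refine mono_err _ _ _ (fun i => ?_) (fun i => (hb j hj i).trans (by norm_num)) (hd j hj) _
    have h1 := hb j hj i
    have h2 := hd j hj i
    have h3 : |pr w (pj j) i| ≤ |pr w (pj j) i - v j i| + |v j i| := by
      simpa using abs_add_le (pr w (pj j) i - v j i) (v j i)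
    have : (1 / 10 ^ 10 : ℝ) ≤ 1 := by norm_num
    linarith
  by_contra hc
  obtain ⟨i, -, hi⟩ := Finset.exists_max_image Finset.univ (fun i => |c i|) ⟨(0 : Fin 55), Finset.mem_univ _⟩
  have hpos : 0 < |c i| := by
    rcases (abs_nonneg (c i)).lt_or_eq with h1 | h1
    · exact h1
    · exfalso; apply hc; funext k
      have := hi k (Finset.mem_univ _)
      rw [← h1] at this
      simpa using this
  set Y : Fin 55 → ℝ := fun j => (((srows.getD i []).getD j 0 : ℤ) : ℝ) with hY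
  have hcheck := sChk_all i i.2
  simp only [sChk, Bool.and_eq_true, decide_eq_true_eq] at hcheck
  obtain ⟨hc1, hc2⟩ := hcheck
  have hYn : ∑ j, |Y j| ≤ 5 * 10 ^ 7 := by
    have h1 := (absL_le (srows.getD i []) 55).trans hc2
    have : ((∑ j : Fin 55, |(srows.getD i []).getD j 0| : ℤ) : ℝ) ≤ ((5 * 10 ^ 7 : ℤ) : ℝ) := by
      exact_mod_cast h1
    have h5 : ∑ j, |Y j| = ((∑ j : Fin 55, |(srows.getD i []).getD j 0| : ℤ) : ℝ) := by
      rw [Int.cast_sum]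
      refine Finset.sum_congr rfl fun j _ => ?_
      rw [Int.cast_abs]
    rw [h5]
    exact this.trans (by norm_num)
  have hE : ∑ k : Fin 55, |∑ j : Fin 55, Y j * mono (mk k) (v j) - if i = k then 10 ^ 3 else 0|
      ≤ 10 ^ 2 := by
    rw [sErr, sum_range_map'] at hc1
    have h1 : ((∑ k : Fin 55, |dot (srows.getD i []) (cols.getD k []) - if (i : ℕ) = (k : ℕ) then 10 ^ 51 else 0| : ℤ) : ℝ)
        ≤ ((10 ^ 50 : ℤ) : ℝ) := by exact_mod_cast hc1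
    rw [Int.cast_sum] at h1
    have h2 : ∀ k : Fin 55, ((|dot (srows.getD i []) (cols.getD k []) - if (i : ℕ) = (k : ℕ) then 10 ^ 51 else 0| : ℤ) : ℝ)
        = 10 ^ 48 * |∑ j : Fin 55, Y j * mono (mk k) (v j) - if i = k then 10 ^ 3 else 0| := by
      intro k
      have hk : cols.getD k [] = (List.range' 0 55).map fun j => mono (mk k) (pz (pj j)) := by
        have hlen : monos.length = 55 := by decide
        rw [cols, List.getD_eq_getElem _ _ (by rw [List.length_map, hlen]; exact k.2), List.getElem_map]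
        congr 1
        funext j
        rw [H537R3.Chess.mk, List.getD_eq_getElem _ _ (by rw [hlen]; exact k.2)]
      rw [hk, dot_map, Int.cast_abs, Int.cast_sub, Int.cast_sum]
      rw [show (10 : ℝ) ^ 48 = |(10 : ℝ) ^ 48| by norm_num, ← abs_mul, mul_sub, Finset.mul_sum]
      congr 2
      · refine Finset.sum_congr rfl fun j _ => ?_
        rw [Int.cast_mul, mono_cast, zero_add]
        have : (fun i' => ((pz (pj j) i' : ℤ) : ℝ)) = fun i' => 10 ^ 12 * v j i' := by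
          funext i'; rw [hv]; field_simp
        rw [this, mono_scale]
        simp only [hY]
        ring
      · by_cases hik : i = k
        · simp only [hik, if_true]; push_cast; ring
        · have : (i : ℕ) ≠ (k : ℕ) := fun h => hik (Fin.ext h)
          simp only [hik, this, if_false]; simp
    rw [Finset.sum_congr rfl fun k _ => h2 k, ← Finset.mul_sum] at h1
    have h3 : ((10 ^ 50 : ℤ) : ℝ) = 10 ^ 48 * (10 ^ 2) := by norm_num
    rw [h3] at h1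
    exact le_of_mul_le_mul_left h1 (by norm_num)
  have hsum : ∑ k : Fin 55, c k * ∑ j : Fin 55, Y j * mono (mk k) (pr w (pj j)) = 0 := by
    have : ∑ k : Fin 55, c k * ∑ j : Fin 55, Y j * mono (mk k) (pr w (pj j))
        = ∑ j : Fin 55, Y j * ∑ k : Fin 55, c k * mono (mk k) (pr w (pj j)) := by
      simp_rw [Finset.mul_sum]
      rw [Finset.sum_comm]
      refine Finset.sum_congr rfl fun j _ => Finset.sum_congr rfl fun k _ => by ring
    rw [this]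
    refine Finset.sum_eq_zero fun j _ => ?_
    rw [h j j.2, mul_zero]
  have hci : c i * (10 ^ 3) = -(∑ k : Fin 55, c k * (∑ j : Fin 55, Y j * mono (mk k) (v j) - if i = k then 10 ^ 3 else 0))
      - ∑ k : Fin 55, c k * ∑ j : Fin 55, Y j * (mono (mk k) (pr w (pj j)) - mono (mk k) (v j)) := by
    have e1 : ∑ k : Fin 55, c k * (∑ j : Fin 55, Y j * mono (mk k) (v j) - if i = k then 10 ^ 3 else 0)
        = ∑ k : Fin 55, c k * ∑ j : Fin 55, Y j * mono (mk k) (v j) - c i * (10 ^ 3) := by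
      simp_rw [mul_sub]
      rw [Finset.sum_sub_distrib]
      congr 1
      simp
    have e2 : ∑ k : Fin 55, c k * ∑ j : Fin 55, Y j * (mono (mk k) (pr w (pj j)) - mono (mk k) (v j))
        = ∑ k : Fin 55, c k * ∑ j : Fin 55, Y j * mono (mk k) (pr w (pj j))
          - ∑ k : Fin 55, c k * ∑ j : Fin 55, Y j * mono (mk k) (v j) := by
      simp_rw [mul_sub, Finset.sum_sub_distrib, mul_sub, Finset.sum_sub_distrib]
    rw [e1, e2, hsum]; ring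
  have hle : ∀ k, |c k| ≤ |c i| := fun k => hi k (Finset.mem_univ _)
  have hA : |∑ k : Fin 55, c k * (∑ j : Fin 55, Y j * mono (mk k) (v j) - if i = k then 10 ^ 3 else 0)|
      ≤ |c i| * (10 ^ 2) := by
    refine (Finset.abs_sum_le_sum_abs _ _).trans ?_
    refine le_trans ?_ (mul_le_mul_of_nonneg_left hE (abs_nonneg (c i)))
    rw [Finset.mul_sum]
    refine Finset.sum_le_sum fun k _ => ?_
    rw [abs_mul]
    exact mul_le_mul_of_nonneg_right (hle k) (abs_nonneg _)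
  have hB : |∑ k : Fin 55, c k * ∑ j : Fin 55, Y j * (mono (mk k) (pr w (pj j)) - mono (mk k) (v j))|
      ≤ |c i| * (55 * (5 * 10 ^ 7 * (108 * (1 / 10 ^ 10)))) := by
    refine (Finset.abs_sum_le_sum_abs _ _).trans ?_
    have : ∀ k : Fin 55, |c k * ∑ j : Fin 55, Y j * (mono (mk k) (pr w (pj j)) - mono (mk k) (v j))|
        ≤ |c i| * (5 * 10 ^ 7 * (108 * (1 / 10 ^ 10))) := by
      intro k
      rw [abs_mul]
      refine mul_le_mul (hle k) ?_ (abs_nonneg _) (abs_nonneg _)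
      refine (Finset.abs_sum_le_sum_abs _ _).trans ?_
      calc ∑ j : Fin 55, |Y j * (mono (mk k) (pr w (pj j)) - mono (mk k) (v j))|
          ≤ ∑ j : Fin 55, |Y j| * (108 * (1 / 10 ^ 10)) := by
            refine Finset.sum_le_sum fun j _ => ?_
            rw [abs_mul]
            exact mul_le_mul_of_nonneg_left (hm j j.2 k) (abs_nonneg _)
        _ = (∑ j : Fin 55, |Y j|) * (108 * (1 / 10 ^ 10)) := by rw [Finset.sum_mul]
        _ ≤ _ := mul_le_mul_of_nonneg_right hYn (by norm_num)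
    refine (Finset.sum_le_sum fun k _ => this k).trans ?_
    rw [Finset.sum_const, Finset.card_univ, Fintype.card_fin, nsmul_eq_mul]
    apply le_of_eq; push_cast; ring
  have hfin : |c i| * (10 ^ 3) ≤ |c i| * (10 ^ 2) + |c i| * (55 * (5 * 10 ^ 7 * (108 * (1 / 10 ^ 10)))) := by
    calc |c i| * (10 ^ 3) = |c i * (10 ^ 3)| := by rw [abs_mul]; norm_num
      _ ≤ _ := by
        rw [hci]
        refine (abs_sub _ _).trans ?_
        rw [abs_neg]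
        exact add_le_add hA hB
  have : (55 * (5 * 10 ^ 7 * (108 * (1 / 10 ^ 10))) : ℝ) ≤ 100 := by norm_num
  nlinarith

end Pool.Agent.Y492.Chess
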