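import Pool.Agent.Y492.Chess.Basis
import Pool.Agent.Y492.Chess.Star
import Pool.Agent.Y492.Chess.Arc

/-! The grid of arcs. -/

set_option autoImplicit false

open H537R3.Chess

namespace Pool.Agent.Y492.Chess

/-- the point `(u, s v, z)` -/
noncomputable def mapA (s : ℝ) (p : ℝ × ℝ × ℝ) : E3 := !₂[p.1, s * p.2.1, p.2.2]
/-- the point `(s v, u, z)` -/
noncomputable def mapB (s : ℝ) (p : ℝ × ℝ × ℝ) : E3 := !₂[s * p.2.1, p.1, p.2.2]

/-- the sign of the arc number `g`, if there are `q` circles and their mirror images -/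
def sg (q g : ℕ) : ℝ := if g < q then 1 else -1

theorem sg_sq (q g : ℕ) : sg q g ^ 2 = 1 := by
  unfold sg; split <;> norm_num

theorem sg_ne (q g : ℕ) : sg q g ≠ 0 := by
  unfold sg; split <;> norm_num

/-- the arc of the block `r` of parameters -/
def arcR (w : ℕ → ℝ) (r : ℕ) : Set (ℝ × ℝ × ℝ) :=
  arcS (w (4 * r)) (w (4 * r + 1)) (w (4 * r + 2)) (w (4 * r + 3))

/-- the arcs of the first family: `na` arcs in `y > 0` and their mirror images -/
def arcA (w : ℕ → ℝ) (g : ℕ) : Set E3 := mapA (sg na g) '' arcR w (g % na)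
/-- the arcs of the second family: `nb` arcs in `x > 0` and their mirror images -/
def arcB (w : ℕ → ℝ) (g : ℕ) : Set E3 := mapB (sg nb g) '' arcR w (na + g % nb)

def posChk (g : ℕ) : Bool :=
  decide (10 ^ 17 ≤ zi (ip (g / nb) (g % nb) 0)) && decide (10 ^ 17 ≤ zi (ip (g / nb) (g % nb) 1))

theorem posChk_all : (List.range (na * nb)).all posChk = true := by decide +kernel

theorem pos_pt {w : ℕ → ℝ} (hw : Cfg w) {i j : ℕ} (hi : i < na) (hj : j < nb) :
    0 < w (ip i j 0) ∧ 0 < w (ip i j 1) := by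
  have h1 := posChk_all
  rw [List.all_eq_true] at h1
  have hlt : nb * i + j < na * nb := by
    have h1 : nb * i + nb ≤ nb * na := by
      have := Nat.mul_le_mul_left nb (show i + 1 ≤ na from hi)
      linarith
    rw [mul_comm na nb]; omega
  have h2 := h1 (nb * i + j) (List.mem_range.mpr hlt)
  have hnb : 0 < nb := by decide
  have e3 : (nb * i + j) / nb = i := by
    rw [Nat.mul_add_div hnb, Nat.div_eq_of_lt hj, add_zero]
  have e4 : (nb * i + j) % nb = j := by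
    rw [Nat.mul_add_mod, Nat.mod_eq_of_lt hj]
  simp only [posChk, e3, e4, Bool.and_eq_true, decide_eq_true_eq] at h2
  have key : ∀ k, (10 ^ 17 : ℤ) ≤ zi k → 0 < w k := by
    intro k hk
    have h3 := (abs_le.mp (hw.near k)).1
    have h4 : ((10 ^ 17 : ℤ) : ℝ) ≤ (zi k : ℝ) := by exact_mod_cast hk
    have h5 : (1 / 10 ^ 3 : ℝ) ≤ za k := by
      unfold za
      rw [le_div_iff₀ (by norm_num)]
      refine le_trans (le_of_eq ?_) h4
      norm_num
    have : (1 / 10 ^ 12 : ℝ) < 1 / 10 ^ 3 := by norm_num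
    linarith
  exact ⟨key _ h2.1, key _ h2.2⟩

/-- the four equations -/
theorem cfg_eqs {w : ℕ → ℝ} (hw : Cfg w) {i j : ℕ} (hi : i < na) (hj : j < nb) :
    w (ip i j 1) = w (ia i 0) * w (ip i j 2) + w (ia i 1) ∧
    w (ip i j 0) = w (ib j 0) * w (ip i j 2) + w (ib j 1) ∧
    w (ip i j 0) ^ 2 + w (ip i j 1) ^ 2 + w (ip i j 2) ^ 2 = w (ia i 2) * w (ip i j 2) + w (ia i 3) ∧
    w (ip i j 0) ^ 2 + w (ip i j 1) ^ 2 + w (ip i j 2) ^ 2 = w (ib j 2) * w (ip i j 2) + w (ib j 3) := by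
  have h := hw.eq i hi j hj
  simp only [eqs, List.mem_cons, List.not_mem_nil, or_false, forall_eq_or_imp, forall_eq, QP.ev,
    List.map_cons, List.map_nil, List.sum_cons, List.sum_nil] at h
  obtain ⟨h1, h2, h3, h4⟩ := h
  push_cast at h1 h2 h3 h4
  refine ⟨?_, ?_, ?_, ?_⟩
  · linear_combination -h1
  · linear_combination -h2
  · linear_combination h3
  · linear_combination h3 + h4

theorem memA {w : ℕ → ℝ} (hw : Cfg w) {i j : ℕ} (hi : i < na) (hj : j < nb) {s : ℝ} (hs : s ^ 2 = 1) :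
    (s * w (ip i j 0), w (ip i j 1), w (ip i j 2)) ∈ arcR w i := by
  obtain ⟨h1, -, h3, -⟩ := cfg_eqs hw hi hj
  refine ⟨?_, ?_, (pos_pt hw hi hj).2⟩
  · exact h1
  · show (s * w (ip i j 0)) ^ 2 + w (ip i j 1) ^ 2 + w (ip i j 2) ^ 2 = _
    rw [mul_pow, hs, one_mul]
    exact h3

theorem memB {w : ℕ → ℝ} (hw : Cfg w) {i j : ℕ} (hi : i < na) (hj : j < nb) {s : ℝ} (hs : s ^ 2 = 1) :
    (s * w (ip i j 1), w (ip i j 0), w (ip i j 2)) ∈ arcR w (na + j) := by
  obtain ⟨-, h2, -, h4⟩ := cfg_eqs hw hi hj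
  refine ⟨?_, ?_, (pos_pt hw hi hj).1⟩
  · exact h2
  · show (s * w (ip i j 1)) ^ 2 + w (ip i j 0) ^ 2 + w (ip i j 2) ^ 2 = _
    rw [mul_pow, hs, one_mul]
    have : w (ip i j 1) ^ 2 + w (ip i j 0) ^ 2 + w (ip i j 2) ^ 2
        = w (ip i j 0) ^ 2 + w (ip i j 1) ^ 2 + w (ip i j 2) ^ 2 := by ring
    rw [this]
    exact h4

theorem mapA_cont (s : ℝ) : Continuous (mapA s) := by
  unfold mapA; fun_prop

theorem mapB_cont (s : ℝ) : Continuous (mapB s) := by
  unfold mapB; fun_prop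

theorem mapA_inj {s : ℝ} (hs : s ≠ 0) {p q : ℝ × ℝ × ℝ} (h : mapA s p = mapA s q) : p = q := by
  have h0 : p.1 = q.1 := congrFun (congrArg (fun v : E3 => (v : Fin 3 → ℝ)) h) 0
  have h1 : s * p.2.1 = s * q.2.1 := congrFun (congrArg (fun v : E3 => (v : Fin 3 → ℝ)) h) 1
  have h2 : p.2.2 = q.2.2 := congrFun (congrArg (fun v : E3 => (v : Fin 3 → ℝ)) h) 2
  exact Prod.ext h0 (Prod.ext (mul_left_cancel₀ hs h1) h2)

theorem mapB_inj {s : ℝ} (hs : s ≠ 0) {p q : ℝ × ℝ × ℝ} (h : mapB s p = mapB s q) : p = q := by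
  have h0 : s * p.2.1 = s * q.2.1 := congrFun (congrArg (fun v : E3 => (v : Fin 3 → ℝ)) h) 0
  have h1 : p.1 = q.1 := congrFun (congrArg (fun v : E3 => (v : Fin 3 → ℝ)) h) 1
  have h2 : p.2.2 = q.2.2 := congrFun (congrArg (fun v : E3 => (v : Fin 3 → ℝ)) h) 2
  exact Prod.ext h1 (Prod.ext (mul_left_cancel₀ hs h0) h2)

/-- An arc of a block, moved by `mapA`, is a circular arc. -/
theorem arcA_isArc {w : ℕ → ℝ} (hw : Cfg w) {i : ℕ} (hi : i < na) {s : ℝ} (hs : s ^ 2 = 1) :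
    IsArc (mapA s '' arcR w i) := by
  have hs0 : s ≠ 0 := by rintro rfl; norm_num at hs
  have hnb : 0 < nb := by decide
  have m1 := memA hw hi hnb (s := 1) (by norm_num)
  have m2 := memA hw hi hnb (s := -1) (by norm_num)
  have hx := (pos_pt hw hi hnb).1
  have hne : mapA s (1 * w (ip i 0 0), w (ip i 0 1), w (ip i 0 2)) ≠
      mapA s (-1 * w (ip i 0 0), w (ip i 0 1), w (ip i 0 2)) := by
    intro h
    have := congrArg Prod.fst (mapA_inj hs0 h)
    simp only at this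
    linarith
  have hsub : ∀ p ∈ arcR w i, linF 0 0 s (-w (4 * i)) (-w (4 * i + 1)) (mapA s p) = 0 ∧
      linF 1 0 0 (-w (4 * i + 2)) (-w (4 * i + 3)) (mapA s p) = 0 := by
    rintro ⟨u, v, z⟩ ⟨h1, h2, -⟩
    simp only at h1 h2
    constructor
    · show 0 * (u ^ 2 + (s * v) ^ 2 + z ^ 2) + (0 * u + s * (s * v) + -w (4 * i) * z) + -w (4 * i + 1) = 0
      linear_combination h1 + v * hs
    · show 1 * (u ^ 2 + (s * v) ^ 2 + z ^ 2) + (0 * u + 0 * (s * v) + -w (4 * i + 2) * z) + -w (4 * i + 3) = 0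
      linear_combination h2 + v ^ 2 * hs
  have hcirc := circle_of_lin 0 0 s (-w (4 * i)) (-w (4 * i + 1)) 1 0 0 (-w (4 * i + 2)) (-w (4 * i + 3))
      one_ne_zero (by rintro ⟨-, h⟩; apply hs0; linarith) _ _ hne (hsub _ m1).1 (hsub _ m1).2
      (hsub _ m2).1 (hsub _ m2).2
  refine ⟨⟨⟨_, _, m1, rfl⟩, ((arcS_preconnected _ _ _ _).image _ (mapA_cont s).continuousOn)⟩,
    ⟨_, ⟨_, m1, rfl⟩, _, ⟨_, m2, rfl⟩, hne⟩, _, hcirc, ?_⟩
  rintro _ ⟨p, hp, rfl⟩
  exact hsub p hp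

theorem arcB_isArc {w : ℕ → ℝ} (hw : Cfg w) {j : ℕ} (hj : j < nb) {s : ℝ} (hs : s ^ 2 = 1) :
    IsArc (mapB s '' arcR w (na + j)) := by
  have hs0 : s ≠ 0 := by rintro rfl; norm_num at hs
  have hna : 0 < na := by decide
  have m1 := memB hw hna hj (s := 1) (by norm_num)
  have m2 := memB hw hna hj (s := -1) (by norm_num)
  have hx := (pos_pt hw hna hj).2
  have hne : mapB s (1 * w (ip 0 j 1), w (ip 0 j 0), w (ip 0 j 2)) ≠
      mapB s (-1 * w (ip 0 j 1), w (ip 0 j 0), w (ip 0 j 2)) := by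
    intro h
    have := congrArg Prod.fst (mapB_inj hs0 h)
    simp only at this
    linarith
  obtain ⟨r, hr⟩ : ∃ r, r = na + j := ⟨_, rfl⟩
  rw [← hr] at m1 m2 ⊢
  have hsub : ∀ p ∈ arcR w r, linF 0 s 0 (-w (4 * r)) (-w (4 * r + 1)) (mapB s p) = 0 ∧
      linF 1 0 0 (-w (4 * r + 2)) (-w (4 * r + 3)) (mapB s p) = 0 := by
    rintro ⟨u, v, z⟩ ⟨h1, h2, -⟩
    simp only at h1 h2
    constructor
    · show 0 * ((s * v) ^ 2 + u ^ 2 + z ^ 2) + (s * (s * v) + 0 * u + -w (4 * r) * z) + -w (4 * r + 1) = 0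
      linear_combination h1 + v * hs
    · show 1 * ((s * v) ^ 2 + u ^ 2 + z ^ 2) + (0 * (s * v) + 0 * u + -w (4 * r + 2) * z) + -w (4 * r + 3) = 0
      linear_combination h2 + v ^ 2 * hs
  have hcirc := circle_of_lin 0 s 0 (-w (4 * r)) (-w (4 * r + 1)) 1 0 0 (-w (4 * r + 2)) (-w (4 * r + 3))
      one_ne_zero (by rintro ⟨h, -⟩; apply hs0; linarith) _ _ hne (hsub _ m1).1 (hsub _ m1).2
      (hsub _ m2).1 (hsub _ m2).2
  refine ⟨⟨⟨_, _, m1, rfl⟩, ((arcS_preconnected _ _ _ _).image _ (mapB_cont s).continuousOn)⟩,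
    ⟨_, ⟨_, m1, rfl⟩, _, ⟨_, m2, rfl⟩, hne⟩, _, hcirc, ?_⟩
  rintro _ ⟨p, hp, rfl⟩
  exact hsub p hp

/-! ### Disjointness -/

def dDet (r r' : ℕ) : ℤ :=
  (zi (4 * r) - zi (4 * r')) * (zi (4 * r + 3) - zi (4 * r' + 3)) -
    (zi (4 * r + 1) - zi (4 * r' + 1)) * (zi (4 * r + 2) - zi (4 * r' + 2))

def dChk (g : ℕ) : Bool :=
  let r := g / (na + nb)
  let r' := g % (na + nb)
  decide (r' ≤ r) || (decide (r < na) && decide (na ≤ r')) || decide (10 ^ 37 ≤ |dDet r r'|)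

def bChk (k : ℕ) : Bool := decide (|zi k| ≤ 4 * 10 ^ 20)

theorem dChk_all : (List.range ((na + nb) * (na + nb))).all dChk = true := by decide +kernel
theorem bChk_all : (List.range (4 * (na + nb))).all bChk = true := by decide +kernel

theorem prod_err {x y X Y e : ℝ} (he : 0 ≤ e) (he1 : e ≤ 1) (hx : |x - X| ≤ e) (hy : |y - Y| ≤ e) (hX : |X| ≤ 8)
    (hY : |Y| ≤ 8) : |x * y - X * Y| ≤ 17 * e := by
  have e1 : x * y - X * Y = (x - X) * Y + (x - X) * (y - Y) + X * (y - Y) := by ring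
  rw [e1]
  have h1 : |(x - X) * Y| ≤ e * 8 := by
    rw [abs_mul]; exact mul_le_mul hx hY (abs_nonneg _) he
  have h2 : |(x - X) * (y - Y)| ≤ e * 1 := by
    rw [abs_mul]; exact mul_le_mul hx (hy.trans he1) (abs_nonneg _) he
  have h3 : |X * (y - Y)| ≤ 8 * e := by
    rw [abs_mul]; exact mul_le_mul hX hy (abs_nonneg _) (by norm_num)
  have h4 := abs_add_le ((x - X) * Y + (x - X) * (y - Y)) (X * (y - Y))
  have h5 := abs_add_le ((x - X) * Y) ((x - X) * (y - Y))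
  linarith

theorem det_ne {w : ℕ → ℝ} (hw : Cfg w) {r r' : ℕ} (h1 : r < na + nb) (h2 : r' < na + nb)
    (h : 10 ^ 37 ≤ |dDet r r'|) :
    (w (4 * r) - w (4 * r')) * (w (4 * r + 3) - w (4 * r' + 3)) -
      (w (4 * r + 1) - w (4 * r' + 1)) * (w (4 * r + 2) - w (4 * r' + 2)) ≠ 0 := by
  intro h0
  have hb : ∀ k < 4 * (na + nb), |za k| ≤ 4 := by
    intro k hk
    have h3 := bChk_all
    rw [List.all_eq_true] at h3
    have h4 := h3 k (List.mem_range.mpr hk)
    simp only [bChk, decide_eq_true_eq] at h4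
    have h5 : ((|zi k| : ℤ) : ℝ) ≤ ((4 * 10 ^ 20 : ℤ) : ℝ) := by exact_mod_cast h4
    rw [Int.cast_abs] at h5
    unfold za
    rw [abs_div, abs_of_pos (show (0 : ℝ) < 10 ^ 20 by norm_num), div_le_iff₀ (by norm_num)]
    exact h5.trans (by norm_num)
  have hd : ∀ k k', |(w k - w k') - (za k - za k')| ≤ 2 / 10 ^ 12 := by
    intro k k'
    have e : (w k - w k') - (za k - za k') = (w k - za k) - (w k' - za k') := by ring
    rw [e]
    refine (abs_sub _ _).trans ?_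
    have a1 := hw.near k
    have a2 := hw.near k'
    have : (2 / 10 ^ 12 : ℝ) = 1 / 10 ^ 12 + 1 / 10 ^ 12 := by norm_num
    linarith
  have hbb : ∀ k < 4 * (na + nb), ∀ k' < 4 * (na + nb), |za k - za k'| ≤ 8 := by
    intro k hk k' hk'
    refine (abs_sub _ _).trans ?_
    have := hb k hk
    have := hb k' hk'
    linarith
  have p1 := prod_err (e := 2 / 10 ^ 12) (by positivity) (by norm_num) (hd (4 * r) (4 * r'))
    (hd (4 * r + 3) (4 * r' + 3)) (hbb _ (by omega) _ (by omega)) (hbb _ (by omega) _ (by omega))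
  have p2 := prod_err (e := 2 / 10 ^ 12) (by positivity) (by norm_num) (hd (4 * r + 1) (4 * r' + 1))
    (hd (4 * r + 2) (4 * r' + 2)) (hbb _ (by omega) _ (by omega)) (hbb _ (by omega) _ (by omega))
  have e : ((dDet r r' : ℤ) : ℝ) = 10 ^ 40 * ((za (4 * r) - za (4 * r')) * (za (4 * r + 3) - za (4 * r' + 3))
      - (za (4 * r + 1) - za (4 * r' + 1)) * (za (4 * r + 2) - za (4 * r' + 2))) := by
    unfold dDet za
    push_cast
    ring
  have h3 : ((10 ^ 37 : ℤ) : ℝ) ≤ ((|dDet r r'| : ℤ) : ℝ) := by exact_mod_cast h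
  rw [Int.cast_abs, e, abs_mul, abs_of_pos (show (0 : ℝ) < 10 ^ 40 by norm_num)] at h3
  have h4 : (1 / 10 ^ 3 : ℝ) ≤ |(za (4 * r) - za (4 * r')) * (za (4 * r + 3) - za (4 * r' + 3))
      - (za (4 * r + 1) - za (4 * r' + 1)) * (za (4 * r + 2) - za (4 * r' + 2))| := by
    have h5 : ((10 ^ 37 : ℤ) : ℝ) = 10 ^ 40 * (1 / 10 ^ 3) := by norm_num
    rw [h5] at h3
    exact le_of_mul_le_mul_left h3 (by norm_num)
  have h5 : |(za (4 * r) - za (4 * r')) * (za (4 * r + 3) - za (4 * r' + 3))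
      - (za (4 * r + 1) - za (4 * r' + 1)) * (za (4 * r + 2) - za (4 * r' + 2))| ≤ 34 * (2 / 10 ^ 12) := by
    have q1 := abs_le.mp p1
    have q2 := abs_le.mp p2
    rw [abs_le]
    constructor <;> linarith [q1.1, q1.2, q2.1, q2.2]
  have : (34 * (2 / 10 ^ 12) : ℝ) < 1 / 10 ^ 3 := by norm_num
  linarith

/-- Two different blocks of the same family give disjoint arcs. -/
theorem arcR_disj {w : ℕ → ℝ} (hw : Cfg w) {r r' : ℕ} (h1 : r < r') (h2 : r' < na + nb)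
    (h3 : r' < na ∨ na ≤ r) : Disjoint (arcR w r) (arcR w r') := by
  have hchk := dChk_all
  rw [List.all_eq_true] at hchk
  have hpos : 0 < na + nb := by decide
  have hlt : (na + nb) * r + r' < (na + nb) * (na + nb) := by
    have : (na + nb) * (r + 1) ≤ (na + nb) * (na + nb) := Nat.mul_le_mul_left _ (by omega)
    have e : (na + nb) * (r + 1) = (na + nb) * r + (na + nb) := by ring
    omega
  have h4 := hchk ((na + nb) * r + r') (List.mem_range.mpr hlt)
  have e3 : ((na + nb) * r + r') / (na + nb) = r := by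
    rw [Nat.mul_add_div hpos, Nat.div_eq_of_lt h2, add_zero]
  have e4 : ((na + nb) * r + r') % (na + nb) = r' := by
    rw [Nat.mul_add_mod, Nat.mod_eq_of_lt h2]
  simp only [dChk, e3, e4, Bool.or_eq_true, Bool.and_eq_true, decide_eq_true_eq] at h4
  have h5 : 10 ^ 37 ≤ |dDet r r'| := by
    rcases h4 with (h4 | ⟨h4, h6⟩) | h4
    · omega
    · omega
    · exact h4
  rw [Set.disjoint_left]
  rintro ⟨u, v, z⟩ ⟨a1, a2, -⟩ ⟨b1, b2, -⟩
  apply det_ne hw (by omega) h2 h5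
  simp only at a1 a2 b1 b2
  have c1 : (w (4 * r) - w (4 * r')) * z + (w (4 * r + 1) - w (4 * r' + 1)) = 0 := by linarith
  have c2 : (w (4 * r + 2) - w (4 * r' + 2)) * z + (w (4 * r + 3) - w (4 * r' + 3)) = 0 := by linarith
  linear_combination (w (4 * r) - w (4 * r')) * c2 - (w (4 * r + 2) - w (4 * r' + 2)) * c1

theorem arcR_disj' {w : ℕ → ℝ} (hw : Cfg w) {r r' : ℕ} (h1 : r ≠ r')
    (h2 : (r < na ∧ r' < na) ∨ (na ≤ r ∧ na ≤ r' ∧ r < na + nb ∧ r' < na + nb)) :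
    Disjoint (arcR w r) (arcR w r') := by
  rcases lt_or_gt_of_ne h1 with h | h
  · exact arcR_disj hw h (by omega) (by omega)
  · exact (arcR_disj hw h (by omega) (by omega)).symm

theorem arcA_disj {w : ℕ → ℝ} (hw : Cfg w) {g g' : ℕ} (hg : g < 2 * na) (hg' : g' < 2 * na) (h : g ≠ g') :
    Disjoint (arcA w g) (arcA w g') := by
  have hna : 0 < na := by decide
  rw [Set.disjoint_left]
  rintro _ ⟨p, hp, rfl⟩ ⟨q, hq, he⟩
  by_cases hs : sg na g' = sg na g
  · rw [hs] at he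
    have hpq := mapA_inj (sg_ne _ _) he
    subst hpq
    have hmod : g % na ≠ g' % na := by
      intro hm
      apply h
      have hb : (g < na ↔ g' < na) := by
        unfold sg at hs
        constructor
        · intro h1; by_contra h2; simp [h1, h2] at hs; norm_num at hs
        · intro h1; by_contra h2; simp [h1, h2] at hs; norm_num at hs
      have e1 := Nat.div_add_mod g na
      have e2 := Nat.div_add_mod g' na
      have d1 : g / na = g' / na := by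
        rcases lt_or_ge g na with h1 | h1
        · rw [Nat.div_eq_of_lt h1, Nat.div_eq_of_lt (hb.mp h1)]
        · have h2 : na ≤ g' := by by_contra h2; exact absurd (hb.mpr (by omega)) (by omega)
          have q1 : g / na = 1 := Nat.div_eq_of_lt_le (by omega) (by omega)
          have q2 : g' / na = 1 := Nat.div_eq_of_lt_le (by omega) (by omega)
          rw [q1, q2]
      rw [d1, hm] at e1
      omega
    exact Set.disjoint_left.mp (arcR_disj' hw hmod (Or.inl ⟨Nat.mod_lt _ hna, Nat.mod_lt _ hna⟩)) hp hq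
  · have h1 : sg na g' * q.2.1 = sg na g * p.2.1 :=
      congrFun (congrArg (fun v : E3 => (v : Fin 3 → ℝ)) he) 1
    have hp' : 0 < p.2.1 := hp.2.2
    have hq' : 0 < q.2.1 := hq.2.2
    unfold sg at hs h1
    split_ifs at hs h1
    · exact hs rfl
    · linarith
    · linarith
    · exact hs rfl

theorem arcB_disj {w : ℕ → ℝ} (hw : Cfg w) {g g' : ℕ} (hg : g < 2 * nb) (hg' : g' < 2 * nb) (h : g ≠ g') :
    Disjoint (arcB w g) (arcB w g') := by
  have hnb : 0 < nb := by decide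
  rw [Set.disjoint_left]
  rintro _ ⟨p, hp, rfl⟩ ⟨q, hq, he⟩
  by_cases hs : sg nb g' = sg nb g
  · rw [hs] at he
    have hpq := mapB_inj (sg_ne _ _) he
    subst hpq
    have hmod : g % nb ≠ g' % nb := by
      intro hm
      apply h
      have hb : (g < nb ↔ g' < nb) := by
        unfold sg at hs
        constructor
        · intro h1; by_contra h2; simp [h1, h2] at hs; norm_num at hs
        · intro h1; by_contra h2; simp [h1, h2] at hs; norm_num at hs
      have e1 := Nat.div_add_mod g nb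
      have e2 := Nat.div_add_mod g' nb
      have d1 : g / nb = g' / nb := by
        rcases lt_or_ge g nb with h1 | h1
        · rw [Nat.div_eq_of_lt h1, Nat.div_eq_of_lt (hb.mp h1)]
        · have h2 : nb ≤ g' := by by_contra h2; exact absurd (hb.mpr (by omega)) (by omega)
          have q1 : g / nb = 1 := Nat.div_eq_of_lt_le (by omega) (by omega)
          have q2 : g' / nb = 1 := Nat.div_eq_of_lt_le (by omega) (by omega)
          rw [q1, q2]
      rw [d1, hm] at e1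
      omega
    have m1 := Nat.mod_lt g hnb
    have m2 := Nat.mod_lt g' hnb
    exact Set.disjoint_left.mp (arcR_disj' hw (r := na + g % nb) (r' := na + g' % nb) (by omega)
      (Or.inr ⟨by omega, by omega, by omega, by omega⟩)) hp hq
  · have h1 : sg nb g' * q.2.1 = sg nb g * p.2.1 :=
      congrFun (congrArg (fun v : E3 => (v : Fin 3 → ℝ)) he) 0
    have hp' : 0 < p.2.1 := hp.2.2
    have hq' : 0 < q.2.1 := hq.2.2
    unfold sg at hs h1
    split_ifs at hs h1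
    · exact hs rfl
    · linarith
    · linarith
    · exact hs rfl

/-! ### The grid -/

theorem grid {w : ℕ → ℝ} (hw : Cfg w) {n : ℕ} (hn : n + 1 ≤ 2 * na) (hn' : n + 1 ≤ 2 * nb) :
    IsGrid n (fun i => arcA w i) (fun j => arcB w j) := by
  have hna : 0 < na := by decide
  have hnb : 0 < nb := by decide
  refine ⟨fun i => arcA_isArc hw (Nat.mod_lt _ hna) (sg_sq _ _), fun j => arcB_isArc hw (Nat.mod_lt _ hnb) (sg_sq _ _),
    fun i j hij => arcA_disj hw (by omega) (by omega) (fun h => hij (Fin.ext h)),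
    fun i j hij => arcB_disj hw (by omega) (by omega) (fun h => hij (Fin.ext h)), fun i j => ?_⟩
  have hi := Nat.mod_lt (i : ℕ) hna
  have hj := Nat.mod_lt (j : ℕ) hnb
  refine ⟨!₂[sg nb j * w (ip (i % na) (j % nb) 0), sg na i * w (ip (i % na) (j % nb) 1), w (ip (i % na) (j % nb) 2)],
    ⟨_, memA hw hi hj (sg_sq nb j), rfl⟩, ⟨_, memB hw hi hj (sg_sq na i), rfl⟩⟩

/-! ### The exclusion -/

theorem sign_sq {s : ℤ} (h : s = 1 ∨ s = -1) : (s : ℝ) ^ 2 = 1 := by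
  rcases h with rfl | rfl <;> norm_num

/-- the point number `j` -/
noncomputable def pE (w : ℕ → ℝ) (c : ℕ × ℕ × ℤ × ℤ) : E3 :=
  !₂[(c.2.2.1 : ℝ) * w (ip c.1 c.2.1 0), (c.2.2.2 : ℝ) * w (ip c.1 c.2.1 1), w (ip c.1 c.2.1 2)]

theorem vE_pE (w : ℕ → ℝ) (c : ℕ × ℕ × ℤ × ℤ) : vE (pE w c) = pr w c := by
  funext i
  match i with
  | 0 => rfl
  | 1 => rfl
  | 2 => rfl
  | 3 => rfl
  | n + 4 => rfl

theorem pt_on_arc {w : ℕ → ℝ} (hw : Cfg w) {j : ℕ} (hj : j < 55) :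
    (∃ i < 4, pE w (pj j) ∈ arcA w i) ∨ ∃ i < 4, pE w (pj j) ∈ arcB w i := by
  obtain ⟨-, h1, h2, hs⟩ := pChk_spec j hj
  rcases hs with ⟨h3, h4, h5⟩ | ⟨h3, h4, h5⟩
  · left
    refine ⟨(pj j).1, h3, ?_⟩
    have hm : (pj j).1 % na = (pj j).1 := Nat.mod_eq_of_lt h1
    unfold arcA
    rw [hm]
    refine ⟨_, memA hw h1 h2 (sign_sq h5), ?_⟩
    have : sg na (pj j).1 = 1 := by unfold sg; rw [if_pos h1]
    rw [this]
    unfold mapA pE
    rw [h4]
    simp
  · right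
    refine ⟨(pj j).2.1, h3, ?_⟩
    have hm : (pj j).2.1 % nb = (pj j).2.1 := Nat.mod_eq_of_lt h2
    unfold arcB
    rw [hm]
    refine ⟨_, memB hw h1 h2 (sign_sq h5), ?_⟩
    have : sg nb (pj j).2.1 = 1 := by unfold sg; rw [if_pos h2]
    rw [this]
    unfold mapB pE
    rw [h4]
    simp

/-- A function in `Lin ^ 4` vanishing on the first four arcs of each family is zero. -/
theorem vanish_all {w : ℕ → ℝ} (hw : Cfg w) (f : E3 → ℝ) (hf : f ∈ Lin ^ 4)
    (hA : ∀ i < 4, ∀ x ∈ arcA w i, f x = 0) (hB : ∀ i < 4, ∀ x ∈ arcB w i, f x = 0) : f = 0 := by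
  obtain ⟨c, hc⟩ := lin4_coeffs f hf
  have hc0 : c = 0 := by
    apply star_inj hw
    intro j hj
    rw [← vE_pE, ← hc]
    rcases pt_on_arc hw hj with ⟨i, hi, h⟩ | ⟨i, hi, h⟩
    · exact hA i hi _ h
    · exact hB i hi _ h
  funext x
  rw [hc x, hc0]
  simp

/-- Sets `{Q(x, y, z, x² + y² + z²) = 0}`, `Q` a polynomial of degree at most 4, other than `ℝ³`. -/
def TypeQ (T : Set E3) : Prop :=
  ∃ Q : MvPolynomial (Fin 4) ℝ, Q.totalDegree ≤ 4 ∧
    T = {x | MvPolynomial.eval ![x 0, x 1, x 2, x 0 ^ 2 + x 1 ^ 2 + x 2 ^ 2] Q = 0} ∧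
    T ≠ Set.univ

theorem typeQ_quart (T : Set E3) (hT : TypeQ T) : ∃ f ∈ Lin ^ 4, f ≠ 0 ∧ ∀ x ∈ T, f x = 0 := by
  obtain ⟨Q, hQ, rfl, hne⟩ := hT
  refine ⟨fun x => MvPolynomial.eval ![x 0, x 1, x 2, x 0 ^ 2 + x 1 ^ 2 + x 2 ^ 2] Q, ?_, ?_, fun x hx => hx⟩
  · have h1 : (fun x : E3 => MvPolynomial.eval ![x 0, x 1, x 2, x 0 ^ 2 + x 1 ^ 2 + x 2 ^ 2] Q)
        = ∑ d ∈ Q.support, fun x : E3 => Q.coeff d * ((x 0) ^ d 0 * (x 1) ^ d 1 * (x 2) ^ d 2
            * (x 0 ^ 2 + x 1 ^ 2 + x 2 ^ 2) ^ d 3) := by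
      funext x
      rw [MvPolynomial.eval_eq', Finset.sum_apply]
      refine Finset.sum_congr rfl fun d _ => ?_
      rw [Fin.prod_univ_four]
      simp
    rw [h1]
    refine Submodule.sum_mem _ fun d hd => ?_
    have hdeg : d 0 + d 1 + d 2 + d 3 ≤ 4 := by
      have := (MvPolynomial.le_totalDegree hd).trans hQ
      rwa [Finsupp.sum_fintype _ _ (by simp), Fin.sum_univ_four] at this
    refine smul_mem' _ ?_
    have p0 := Submodule.pow_mem_pow Lin (coord_mem_Lin 0) (d 0)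
    have p1 := Submodule.pow_mem_pow Lin (coord_mem_Lin 1) (d 1)
    have p2 := Submodule.pow_mem_pow Lin (coord_mem_Lin 2) (d 2)
    have p3 := Submodule.pow_mem_pow Lin nsq_mem_Lin (d 3)
    exact mul_mem' (mul_mem' (mul_mem' p0 p1 le_rfl) p2 le_rfl) p3 (by omega)
  · intro h
    apply hne
    rw [Set.eq_univ_iff_forall]
    intro x
    exact congrFun h x

theorem main_grids : ∃ A B : ℕ → Set E3, ∀ n : ℕ, 3 ≤ n → n + 1 ≤ 2 * na → n + 1 ≤ 2 * nb →
    IsGrid n (fun i => A i) (fun j => B j) ∧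
    ∀ l : List (E3 × ℝ), (∀ s ∈ l, 0 < s.2) →
      ∀ T : Set E3, (TypeC T ∨ TypeD T ∨ TypeE T ∨ TypeQ T) →
      ∃ x ∈ (⋃ i : Fin (n + 1), A i) ∪ ⋃ j : Fin (n + 1), B j, InvDefined l x ∧ applyInv l x ∉ T := by
  obtain ⟨w, hw⟩ := exists_cfg
  refine ⟨arcA w, arcB w, fun n hn3 hn hn' => ⟨grid hw hn hn', ?_⟩⟩
  intro l hl T hT
  have hg := grid hw hn hn'
  by_contra hcon
  push Not at hcon
  obtain ⟨f, hf, hf0, hfT⟩ : ∃ f ∈ Lin ^ 4, f ≠ 0 ∧ ∀ x ∈ T, f x = 0 := by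
    rcases hT with h | h | h | h
    · exact typeC_quart T h
    · exact typeD_quart T h
    · exact typeE_quart T h
    · exact typeQ_quart T h
  obtain ⟨f', hf', hf0', hpull⟩ := pull_list 4 l hl f hf hf0
  apply hf0'
  refine vanish_all hw f' hf' (fun i hi => ?_) (fun i hi => ?_)
  · obtain ⟨hc, hnt, -⟩ := hg.arcA ⟨i, by omega⟩
    refine vanish_on_arc 4 l hl _ hc hnt f' hf' (fun x hx hdef => ?_)
    exact hpull x hdef (hfT _ (hcon x (Or.inl (Set.mem_iUnion.mpr ⟨⟨i, by omega⟩, hx⟩)) hdef))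
  · obtain ⟨hc, hnt, -⟩ := hg.arcB ⟨i, by omega⟩
    refine vanish_on_arc 4 l hl _ hc hnt f' hf' (fun x hx hdef => ?_)
    exact hpull x hdef (hfT _ (hcon x (Or.inr (Set.mem_iUnion.mpr ⟨⟨i, by omega⟩, hx⟩)) hdef))

end Pool.Agent.Y492.Chess
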