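import Pool.Agent.H537R3.Chess.StarDefs
import Pool.Agent.Y492.Chess.Exist

/-! The 55 evaluation points and the integer checks for them. -/

set_option autoImplicit false

open H537R3.Chess

namespace Pool.Agent.Y492.Chess

/-- the point number `j` of the list -/
def pj (j : ℕ) : ℕ × ℕ × ℤ × ℤ := ptl.getD j (0, 0, 1, 1)

/-- approximate coordinates `1, x, y, z, |x|²` of a point, scaled by `10 ^ 12` -/
def pz (c : ℕ × ℕ × ℤ × ℤ) (i : ℕ) : ℤ :=
  let X := c.2.2.1 * (zi (ip c.1 c.2.1 0) / 10 ^ 8)
  let Y := c.2.2.2 * (zi (ip c.1 c.2.1 1) / 10 ^ 8)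
  let Z := zi (ip c.1 c.2.1 2) / 10 ^ 8
  match i with
  | 0 => 10 ^ 12
  | 1 => X
  | 2 => Y
  | 3 => Z
  | _ => (X ^ 2 + Y ^ 2 + Z ^ 2) / 10 ^ 12

def cols : List (List ℤ) := monos.map fun m => (List.range' 0 55).map fun j => mono m (pz (pj j))

def sErr (i : ℕ) : ℤ :=
  ((List.range 55).map fun k =>
    |dot (srows.getD i []) (cols.getD k []) - if i = k then 10 ^ 51 else 0|).sum

def sNorm (i : ℕ) : ℤ := absL (srows.getD i [])

def sChk (i : ℕ) : Bool :=
  decide (sErr i ≤ 10 ^ 50) && decide (sNorm i ≤ 5 * 10 ^ 7)

/-- bounds for the coordinates, the signs, and the position in the first four circles -/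
def pChk (j : ℕ) : Bool :=
  ((List.range 5).all fun i => decide (|pz (pj j) i| ≤ 2 * 10 ^ 12)) &&
  decide ((pj j).1 < na) && decide ((pj j).2.1 < nb) &&
  ((decide ((pj j).1 < 4) && decide ((pj j).2.2.2 = 1) &&
      (decide ((pj j).2.2.1 = 1) || decide ((pj j).2.2.1 = -1))) ||
   (decide ((pj j).2.1 < 4) && decide ((pj j).2.2.1 = 1) &&
      (decide ((pj j).2.2.2 = 1) || decide ((pj j).2.2.2 = -1))))

theorem sChk_0 : (List.range' 0 5).all sChk = true := by decide +kernel
theorem sChk_1 : (List.range' 5 5).all sChk = true := by decide +kernel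
theorem sChk_2 : (List.range' 10 5).all sChk = true := by decide +kernel
theorem sChk_3 : (List.range' 15 5).all sChk = true := by decide +kernel
theorem sChk_4 : (List.range' 20 5).all sChk = true := by decide +kernel
theorem sChk_5 : (List.range' 25 5).all sChk = true := by decide +kernel
theorem sChk_6 : (List.range' 30 5).all sChk = true := by decide +kernel
theorem sChk_7 : (List.range' 35 5).all sChk = true := by decide +kernel
theorem sChk_8 : (List.range' 40 5).all sChk = true := by decide +kernel
theorem sChk_9 : (List.range' 45 5).all sChk = true := by decide +kernel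
theorem sChk_10 : (List.range' 50 5).all sChk = true := by decide +kernel
theorem pChk_all : (List.range 55).all pChk = true := by decide +kernel

theorem sChk_blk (q : ℕ) (hq : q < 11) : (List.range' (5 * q) 5).all sChk = true := by
  interval_cases q
  · exact sChk_0
  · exact sChk_1
  · exact sChk_2
  · exact sChk_3
  · exact sChk_4
  · exact sChk_5
  · exact sChk_6
  · exact sChk_7
  · exact sChk_8
  · exact sChk_9
  · exact sChk_10

theorem sChk_all (i : ℕ) (hi : i < 55) : sChk i = true := by
  have h := sChk_blk (i / 5) (by omega)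
  rw [List.all_eq_true] at h
  exact h i (by rw [List.mem_range'_1]; omega)

end Pool.Agent.Y492.Chess
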