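import Pool.Agent.H537R3.Chess.NK
import Pool.Agent.Y492.Chess.Data

/-! The system of incidence equations of a mirror symmetric grid, and the integer checks of the
Newton-Kantorovich theorem for it. -/

set_option autoImplicit false

open Finset H537R3.Chess

namespace Pool.Agent.Y492.Chess

/-- the parameters `a, b, m, k` of the circle `i` of the first family: `y = a z + b`,
`x² + y² + z² = m z + k` -/
def ia (i t : ℕ) : ℕ := 4 * i + t
/-- the parameters of the circle `j` of the second family: `x = a z + b`, `x² + y² + z² = m z + k` -/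
def ib (j t : ℕ) : ℕ := 4 * (na + j) + t
/-- the coordinates of the intersection point -/
def ip (i j t : ℕ) : ℕ := 4 * (na + nb) + 3 * (nb * i + j) + t

/-- the four equations of the intersection point of the circles `i` and `j` -/
def eqs (i j : ℕ) : List QP :=
  [⟨0, [(1, ia i 1), (-1, ip i j 1)], [(1, ia i 0, ip i j 2)]⟩,
   ⟨0, [(1, ib j 1), (-1, ip i j 0)], [(1, ib j 0, ip i j 2)]⟩,
   ⟨0, [(-1, ia i 3)], [(1, ip i j 0, ip i j 0), (1, ip i j 1, ip i j 1), (1, ip i j 2, ip i j 2),
      (-1, ia i 2, ip i j 2)]⟩,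
   ⟨0, [(1, ia i 3), (-1, ib j 3)], [(1, ia i 2, ip i j 2), (-1, ib j 2, ip i j 2)]⟩]

/-- number of equations -/
def ne : ℕ := 4 * (na * nb)

def eqi (r : ℕ) : QP := (eqs (r / 4 / nb) (r / 4 % nb)).getD (r % 4) ⟨0, [], []⟩

def zi (k : ℕ) : ℤ := z0.getD k 0
def yrow (k : ℕ) : List ℤ := yrows.getD k []

/-- `c l + m`, for lists -/
def axpy (c : ℤ) : List ℤ → List ℤ → List ℤ
  | a :: l, b :: m => (c * a + b) :: axpy c l m
  | [], m => m
  | l, [] => l.map (c * ·)

theorem axpy_getD (c : ℤ) : ∀ (l m : List ℤ) (j : ℕ),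
    (axpy c l m).getD j 0 = c * l.getD j 0 + m.getD j 0
  | a :: l, b :: m, 0 => by simp [axpy]
  | a :: l, b :: m, j + 1 => by
    simp only [axpy, List.getD_cons_succ]
    exact axpy_getD c l m j
  | [], m, j => by cases m <;> simp [axpy]
  | a :: l, [], j => by
    simp only [axpy]
    rcases lt_or_ge j (a :: l).length with h | h
    · rw [List.getD_eq_getElem _ _ (by rw [List.length_map]; exact h), List.getElem_map,
        List.getD_eq_getElem _ _ h]
      simp
    · rw [List.getD_eq_default _ _ (by rw [List.length_map]; exact h), List.getD_eq_default _ _ h]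
      simp

/-- the row of the products with the approximate right inverse -/
def drow (s : ℤ) (q : QP) : List ℤ :=
  q.lin.foldr (fun t acc => axpy (t.1 * s) (yrow t.2) acc)
    (q.quad.foldr (fun t acc => axpy (t.1 * zi t.2.1) (yrow t.2.2)
      (axpy (t.1 * zi t.2.2) (yrow t.2.1) acc)) [])

theorem drow_getD (s : ℤ) (q : QP) (j : ℕ) :
    (drow s q).getD j 0 = q.der s zi (fun k => (yrow k).getD j 0) := by
  obtain ⟨c, lin, quad⟩ := q
  unfold drow QP.der
  simp only
  have h2 : (quad.foldr (fun t acc => axpy (t.1 * zi t.2.1) (yrow t.2.2)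
      (axpy (t.1 * zi t.2.2) (yrow t.2.1) acc)) []).getD j 0
      = (quad.map fun t => (t.1 : ℤ) * (zi t.2.1 * (yrow t.2.2).getD j 0
        + zi t.2.2 * (yrow t.2.1).getD j 0)).sum := by
    induction quad with
    | nil => simp
    | cons t l ih =>
      simp only [List.foldr_cons, axpy_getD, ih, List.map_cons, List.sum_cons]
      ring
  induction lin with
  | nil => simp only [List.foldr_nil, List.map_nil, List.sum_nil, zero_add]; exact_mod_cast h2
  | cons t l ih =>
    simp only [List.foldr_cons, axpy_getD, ih, List.map_cons, List.sum_cons]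
    simp only [Int.cast_id]
    ring

/-- `∑ |l_j - δ_{ij} S|` -/
def errL (i : ℕ) (S : ℤ) : ℕ → List ℤ → ℤ
  | _, [] => 0
  | k, a :: l => |a - if i = k then S else 0| + errL i S (k + 1) l

theorem errL_eq (i : ℕ) (S : ℤ) : ∀ (l : List ℤ) (k : ℕ),
    ∑ j : Fin l.length, |l.getD j 0 - if i = k + j then S else 0| = errL i S k l
  | [], k => by simp [errL]
  | a :: l, k => by
    simp only [List.length_cons, Fin.sum_univ_succ, errL]
    congr 1
    rw [← errL_eq i S l (k + 1)]
    refine Finset.sum_congr rfl fun j _ => ?_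
    have e : k + ((j : ℕ) + 1) = k + 1 + (j : ℕ) := by ring
    simp only [Fin.val_succ, List.getD_cons_succ, e]

/-- `∑ |l_j|` -/
def absL : List ℤ → ℤ
  | [] => 0
  | a :: l => |a| + absL l

theorem absL_nonneg : ∀ l : List ℤ, 0 ≤ absL l
  | [] => le_rfl
  | a :: l => add_nonneg (abs_nonneg a) (absL_nonneg l)

theorem absL_le : ∀ (l : List ℤ) (n : ℕ), ∑ j : Fin n, |l.getD j 0| ≤ absL l
  | [], n => by simp [absL]
  | a :: l, 0 => by simpa using absL_nonneg (a :: l)
  | a :: l, n + 1 => by
    simp only [Fin.sum_univ_succ, absL, Fin.val_zero, List.getD_cons_zero, Fin.val_succ,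
      List.getD_cons_succ]
    have := absL_le l n
    linarith

def chk (r : ℕ) : Bool :=
  let l := drow (10 ^ 20) (eqi r)
  decide (l.length = ne) && decide (errL r (10 ^ 26) 0 l ≤ 10 ^ 24) && decide (muSum (eqi r) ≤ 4) &&
    decide (|(eqi r).ev (10 ^ 20 : ℤ) zi| ≤ 10 ^ 24 / 2)

def chkN (k : ℕ) : Bool := decide (absL (yrow k) ≤ 10 ^ 4 * 10 ^ 6)

end Pool.Agent.Y492.Chess
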